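import Pool.Agent.H105R2.NE.Quo

/-! A subvariety of a finitely based, locally finite variety with a bound on the orders of the
finite subdirectly irreducible members is a Cross variety. -/

namespace Pool.Agent.H105R2.NE

/-- a bound for the variables of a term -/
def RTerm.bd : RTerm → ℕ
  | .var i => i + 1
  | .zero => 0
  | .neg s => s.bd
  | .add s t => max s.bd t.bd
  | .mul s t => max s.bd t.bd

theorem eval_congr {R : Type} [NonUnitalRing R] (t : RTerm) (v w : ℕ → R)
    (h : ∀ i < t.bd, v i = w i) : t.eval v = t.eval w := by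
  induction t with
  | var i => exact h i (Nat.lt_succ_self i)
  | zero => rfl
  | neg s ih => simp only [RTerm.eval]; rw [ih h]
  | add s t ihs iht =>
    simp only [RTerm.eval]
    rw [ihs (fun i hi => h i (lt_of_lt_of_le hi (le_max_left _ _))),
      iht (fun i hi => h i (lt_of_lt_of_le hi (le_max_right _ _)))]
  | mul s t ihs iht =>
    simp only [RTerm.eval]
    rw [ihs (fun i hi => h i (lt_of_lt_of_le hi (le_max_left _ _))),
      iht (fun i hi => h i (lt_of_lt_of_le hi (le_max_right _ _)))]

/-- A bare `n`-element type, without algebraic structure. -/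
def Fn (n : ℕ) : Type := Fin n

instance (n : ℕ) : Finite (Fn n) := inferInstanceAs (Finite (Fin n))

instance finite_structures (n : ℕ) : Finite (NonUnitalRing (Fn n)) := by
  refine Finite.of_injective
    (β := (Fn n → Fn n → Fn n) × (Fn n → Fn n → Fn n))
    (fun inst => (inst.toAdd.add, inst.toMul.mul)) ?_
  intro a b hab
  simp only [Prod.mk.injEq] at hab
  apply NonUnitalRing.ext
  · exact hab.1
  · exact hab.2

theorem transport {Q : Type} [NonUnitalRing Q] [Finite Q] (N : ℕ) (hN : Nat.card Q ≤ N) :
    ∃ (n : ℕ) (_ : n ≤ N) (inst : NonUnitalRing (Fn n)), Nonempty (Q ≃+* Fn n) := by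
  let e : Q ≃ Fn (Nat.card Q) := Finite.equivFin Q
  refine ⟨Nat.card Q, hN, e.symm.nonUnitalRing, ⟨?_⟩⟩
  letI := e.symm.nonUnitalRing
  exact (Equiv.ringEquiv e.symm).symm

open Classical in
/-- an identity of `T` failing in a given structure, if there is one -/
noncomputable def pick (T : Set RTerm) (n : ℕ) (inst : NonUnitalRing (Fn n)) : RTerm :=
  if h : ∃ t ∈ T, ¬ @Holds (Fn n) inst t then h.choose else RTerm.zero

theorem pick_holds (T : Set RTerm) (n : ℕ) (inst : NonUnitalRing (Fn n))
    (R : Type) [NonUnitalRing R] (hR : InVar T R) : Holds R (pick T n inst) := by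
  unfold pick
  split_ifs with h
  · exact hR _ h.choose_spec.1
  · intro v; rfl

theorem pick_spec (T : Set RTerm) (n : ℕ) (inst : NonUnitalRing (Fn n))
    (h : @Holds (Fn n) inst (pick T n inst)) : @InVar T (Fn n) inst := by
  by_contra hcon
  have hex : ∃ t ∈ T, ¬ @Holds (Fn n) inst t := by
    unfold InVar at hcon
    push Not at hcon
    exact hcon
  unfold pick at h
  rw [dif_pos hex] at h
  exact hex.choose_spec.2 h

theorem Holds.equiv {R S : Type} [NonUnitalRing R] [NonUnitalRing S] (e : R ≃+* S) {t : RTerm}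
    (h : Holds R t) : Holds S t :=
  h.of_surjective (e : R →ₙ+* S) e.surjective

theorem InVar.equiv {R S : Type} [NonUnitalRing R] [NonUnitalRing S] (e : R ≃+* S)
    {T : Set RTerm} (h : InVar T R) : InVar T S :=
  fun t ht => (h t ht).equiv e

theorem finitelyBased_of_bound (T T₀ : Set RTerm) (hfin : T₀.Finite) (hsub : SubVar T T₀)
    (hlf : LocallyFinite T₀) (N : ℕ)
    (hN : ∀ (R : Type) [NonUnitalRing R] [Finite R] (r : R), InVar T₀ R → SI R r →
      Nat.card R ≤ N) : FinitelyBased T := by
  classical
  let B : Set RTerm := ⋃ n : Fin (N + 1), Set.range (fun inst : NonUnitalRing (Fn n) =>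
    pick T n inst)
  have hB : B.Finite := Set.finite_iUnion fun n => Set.finite_range _
  refine ⟨T₀ ∪ B, hfin.union hB, ?_, ?_⟩
  · intro R _ hR t ht v
    by_contra hne
    have hR0 : InVar T₀ R := fun t ht => hR t (Or.inl ht)
    -- the subring generated by the values
    let v' : ℕ → R := fun i => if i < t.bd then v i else 0
    have hv' : t.eval v' = t.eval v := by
      apply eval_congr
      intro i hi
      simp only [v', if_pos hi]
    have hfinrange : (Set.range v').Finite := by
      refine Set.Finite.subset (Set.Finite.union (Set.Finite.image v (Set.finite_lt_nat t.bd))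
        (Set.finite_singleton (0 : R))) ?_
      rintro _ ⟨i, rfl⟩
      by_cases hi : i < t.bd
      · left; exact ⟨i, hi, by simp [v', hi]⟩
      · right; simp [v', hi]
    let S := NonUnitalSubring.closure (Set.range v')
    let v'' : ℕ → S := fun i => ⟨v' i, NonUnitalSubring.subset_closure ⟨i, rfl⟩⟩
    have hS0 : InVar (T₀ ∪ B) S := hR.subring S
    have hSfin : Finite S := by
      apply hlf S (hR0.subring S)
      refine ⟨Set.range v'', ?_, ?_⟩
      · have : Set.range v'' = Subtype.val ⁻¹' (Set.range v') := by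
          ext x
          constructor
          · rintro ⟨i, rfl⟩; exact ⟨i, rfl⟩
          · rintro ⟨i, hi⟩; exact ⟨i, Subtype.ext hi⟩
        rw [this]
        exact hfinrange.preimage Subtype.val_injective.injOn
      · rw [eq_top_iff]
        rintro ⟨x, hx⟩ -
        refine NonUnitalSubring.closure_induction
          (p := fun x hx => (⟨x, hx⟩ : S) ∈ NonUnitalSubring.closure (Set.range v''))
          ?_ ?_ ?_ ?_ ?_ hx
        · rintro x ⟨i, rfl⟩
          exact NonUnitalSubring.subset_closure ⟨i, rfl⟩
        · exact zero_mem _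
        · intro x y hx hy h1 h2
          exact add_mem h1 h2
        · intro x hx h1
          exact neg_mem h1
        · intro x y hx hy h1 h2
          exact mul_mem h1 h2
    have hne' : t.eval v'' ≠ 0 := by
      intro h0
      apply hne
      rw [← hv']
      have := eval_map (NonUnitalSubringClass.subtype S) v'' t
      rw [h0, map_zero] at this
      exact this.symm
    obtain ⟨P, hP⟩ := exists_quo_SI (t.eval v'') hne'
    have : Finite (Quo P) := Finite.of_surjective _ (quo_surj P)
    have hQ : InVar (T₀ ∪ B) (Quo P) := hS0.of_surjective _ (quo_surj P)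
    have hcard := hN (Quo P) _ (fun t ht => hQ t (Or.inl ht)) hP
    obtain ⟨n, hn, inst, ⟨e⟩⟩ := transport N hcard
    have h1 : @Holds (Fn n) inst (pick T n inst) := by
      have : pick T n inst ∈ T₀ ∪ B := by
        right
        exact Set.mem_iUnion.2 ⟨⟨n, Nat.lt_succ_of_le hn⟩, ⟨inst, rfl⟩⟩
      exact (hQ _ this).equiv e
    have h2 := pick_spec T n inst h1
    have h3 : InVar T (Quo P) := h2.equiv e.symm
    apply hP.1
    rw [eval_map]
    exact h3 t ht _
  · intro R _ hR t ht
    rcases ht with ht | ht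
    · exact hsub R hR t ht
    · obtain ⟨n, inst, rfl⟩ := Set.mem_iUnion.1 ht
      exact pick_holds T n inst R hR

theorem critical_SI {R : Type} [NonUnitalRing R] (h : Critical R) : ∃ r : R, SI R r := by
  obtain ⟨hfin, hcrit⟩ := h
  unfold InVar at hcrit
  push Not at hcrit
  obtain ⟨t, ht, hnot⟩ := hcrit
  unfold Holds at hnot
  push Not at hnot
  obtain ⟨v, hv⟩ := hnot
  refine ⟨t.eval v, hv, ?_⟩
  rintro I ⟨x, hx, hx0⟩
  rw [← quo_eq_zero, eval_map]
  refine ht (Quo I) ?_ ?_ _
  · refine ⟨⊤, (quo I).comp (NonUnitalSubringClass.subtype ⊤), ?_⟩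
    intro y
    obtain ⟨z, rfl⟩ := quo_surj I y
    exact ⟨⟨z, trivial⟩, rfl⟩
  · rintro ⟨e⟩
    apply hx0
    have hs : Function.Surjective (fun z => e (quo I z)) := e.surjective.comp (quo_surj I)
    have hinj : Function.Injective (fun z => e (quo I z)) := Finite.injective_iff_surjective.2 hs
    apply hinj
    simp only [(quo_eq_zero I).2 hx, map_zero]

theorem cross_of_bound (T T₀ : Set RTerm) (hfin : T₀.Finite) (hsub : SubVar T T₀)
    (hlf : LocallyFinite T₀) (N : ℕ)
    (hN : ∀ (R : Type) [NonUnitalRing R] [Finite R] (r : R), InVar T₀ R → SI R r →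
      Nat.card R ≤ N) : Cross T := by
  refine ⟨finitelyBased_of_bound T T₀ hfin hsub hlf N hN, ?_, ?_⟩
  · intro R _ hR hX
    exact hlf R (hsub R hR) hX
  · have : Finite (Σ n : Fin (N + 1), NonUnitalRing (Fn n)) := inferInstance
    let e := Finite.equivFin (Σ n : Fin (N + 1), NonUnitalRing (Fn n))
    refine ⟨_, fun i => Fn (e.symm i).1, fun i => (e.symm i).2, ?_⟩
    intro R _ hR hcrit
    obtain ⟨r, hr⟩ := critical_SI hcrit
    have := hcrit.1
    obtain ⟨n, hn, inst, ⟨f⟩⟩ := transport N (hN R r (hsub R hR) hr)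
    let G : (Σ n : Fin (N + 1), NonUnitalRing (Fn n)) → Prop := fun s =>
      letI := s.2
      Nonempty (R ≃+* Fn s.1)
    obtain ⟨i, hi⟩ := e.symm.surjective ⟨⟨n, Nat.lt_succ_of_le hn⟩, inst⟩
    have hG : G ⟨⟨n, Nat.lt_succ_of_le hn⟩, inst⟩ := ⟨f⟩
    rw [← hi] at hG
    exact ⟨i, hG⟩

end Pool.Agent.H105R2.NE
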