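import Mathlib

/-! Varieties of (associative, not necessarily unital) rings: definitions. -/

namespace Pool.Agent.H105R2.NE

/-- Terms in the signature `(+, -, 0, ·)` over the variables `x₀, x₁, …`. -/
inductive RTerm : Type
  | var : ℕ → RTerm
  | zero : RTerm
  | neg : RTerm → RTerm
  | add : RTerm → RTerm → RTerm
  | mul : RTerm → RTerm → RTerm

/-- The value of a term in a ring under an assignment of the variables. -/
def RTerm.eval {R : Type} [NonUnitalRing R] (v : ℕ → R) : RTerm → R
  | .var i => v i
  | .zero => 0
  | .neg s => - s.eval v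
  | .add s t => s.eval v + t.eval v
  | .mul s t => s.eval v * t.eval v

/-- The ring `R` satisfies the identity `t = 0`. -/
def Holds (R : Type) [NonUnitalRing R] (t : RTerm) : Prop := ∀ v : ℕ → R, t.eval v = 0

/-- The ring `R` belongs to the variety defined by the set of identities `T`. -/
def InVar (T : Set RTerm) (R : Type) [NonUnitalRing R] : Prop := ∀ t ∈ T, Holds R t

/-- `[x, ₀y] = x`, `[x, ₙ₊₁y] = [[x, ₙy], y]`. -/
def eng {R : Type} [NonUnitalRing R] : ℕ → R → R → R
  | 0, x, _ => x
  | n + 1, x, y => eng n x y * y - y * eng n x y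

/-- The variety defined by `T` is Engel. -/
def Engel (T : Set RTerm) : Prop :=
  ∃ n, 1 ≤ n ∧ ∀ (R : Type) [NonUnitalRing R], InVar T R → ∀ x y : R, eng n x y = 0

/-- The variety of `T'` is contained in the variety of `T`. -/
def SubVar (T' T : Set RTerm) : Prop :=
  ∀ (R : Type) [NonUnitalRing R], InVar T' R → InVar T R

/-- The variety of `T` is minimal non-Engel: it is not Engel but every proper subvariety is. -/
def MinNonEngel (T : Set RTerm) : Prop :=
  ¬ Engel T ∧ ∀ T' : Set RTerm, SubVar T' T → ¬ SubVar T T' → Engel T'

/-- `Q` is a factor of `R`: a homomorphic image of a subring of `R`. -/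
def IsFactor (Q R : Type) [NonUnitalRing Q] [NonUnitalRing R] : Prop :=
  ∃ (S : NonUnitalSubring R) (f : S →ₙ+* Q), Function.Surjective f

/-- The identities satisfied by all proper factors of `R`. -/
def properIdentities (R : Type) [NonUnitalRing R] : Set RTerm :=
  {t | ∀ (Q : Type) [NonUnitalRing Q], IsFactor Q R → ¬ Nonempty (Q ≃+* R) → Holds Q t}

/-- A critical ring: finite, and not in the variety generated by its proper factors. -/
def Critical (R : Type) [NonUnitalRing R] : Prop :=
  Finite R ∧ ¬ InVar (properIdentities R) R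

/-- The variety of `T` is finitely based. -/
def FinitelyBased (T : Set RTerm) : Prop :=
  ∃ T' : Set RTerm, T'.Finite ∧ SubVar T' T ∧ SubVar T T'

/-- The variety of `T` is locally finite: every finitely generated member is finite. -/
def LocallyFinite (T : Set RTerm) : Prop :=
  ∀ (R : Type) [NonUnitalRing R], InVar T R →
    (∃ X : Set R, X.Finite ∧ NonUnitalSubring.closure X = ⊤) → Finite R

/-- The variety of `T` has only finitely many critical rings up to isomorphism. -/
def FinitelyManyCritical (T : Set RTerm) : Prop :=
  ∃ (k : ℕ) (Q : Fin k → Type) (_ : ∀ i, NonUnitalRing (Q i)),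
    ∀ (R : Type) [NonUnitalRing R], InVar T R → Critical R → ∃ i, Nonempty (R ≃+* Q i)

/-- Cross varieties. -/
def Cross (T : Set RTerm) : Prop :=
  FinitelyBased T ∧ LocallyFinite T ∧ FinitelyManyCritical T

/-! ### Basic facts -/

theorem eval_map {R S : Type} [NonUnitalRing R] [NonUnitalRing S] (f : R →ₙ+* S) (v : ℕ → R)
    (t : RTerm) : f (t.eval v) = t.eval (fun i => f (v i)) := by
  induction t with
  | var i => rfl
  | zero => simp [RTerm.eval]
  | neg s ih => simp [RTerm.eval, ih]
  | add s t ihs iht => simp [RTerm.eval, ihs, iht]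
  | mul s t ihs iht => simp [RTerm.eval, ihs, iht]

theorem Holds.of_surjective {R S : Type} [NonUnitalRing R] [NonUnitalRing S] {t : RTerm}
    (h : Holds R t) (f : R →ₙ+* S) (hf : Function.Surjective f) : Holds S t := by
  intro v
  choose w hw using fun i => hf (v i)
  have := eval_map f w t
  rw [h w, map_zero] at this
  rw [this]
  simp [hw]

theorem Holds.of_injective {R S : Type} [NonUnitalRing R] [NonUnitalRing S] {t : RTerm}
    (h : Holds S t) (f : R →ₙ+* S) (hf : Function.Injective f) : Holds R t := by
  intro v
  apply hf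
  rw [eval_map, map_zero, h]

theorem InVar.of_surjective {R S : Type} [NonUnitalRing R] [NonUnitalRing S] {T : Set RTerm}
    (h : InVar T R) (f : R →ₙ+* S) (hf : Function.Surjective f) : InVar T S :=
  fun t ht => (h t ht).of_surjective f hf

theorem InVar.of_injective {R S : Type} [NonUnitalRing R] [NonUnitalRing S] {T : Set RTerm}
    (h : InVar T S) (f : R →ₙ+* S) (hf : Function.Injective f) : InVar T R :=
  fun t ht => (h t ht).of_injective f hf

theorem InVar.subring {R : Type} [NonUnitalRing R] {T : Set RTerm}
    (h : InVar T R) (S : NonUnitalSubring R) : InVar T S :=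
  h.of_injective (NonUnitalSubringClass.subtype S) Subtype.val_injective

theorem InVar.pi {ι : Type} {R : ι → Type} [∀ i, NonUnitalRing (R i)] {T : Set RTerm}
    (h : ∀ i, InVar T (R i)) : InVar T (∀ i, R i) := by
  intro t ht v
  funext i
  have h2 := h i t ht (fun k => v k i)
  have h3 : ∀ s : RTerm, (s.eval v) i = s.eval (fun k => v k i) := by
    intro s
    induction s with
    | var i => rfl
    | zero => rfl
    | neg s ih => simp [RTerm.eval, ih]
    | add s t ihs iht => simp [RTerm.eval, ihs, iht]
    | mul s t ihs iht => simp [RTerm.eval, ihs, iht]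
  rw [h3, h2]; rfl

theorem eng_map {R S : Type} [NonUnitalRing R] [NonUnitalRing S] (f : R →ₙ+* S) (n : ℕ) (x y : R) :
    f (eng n x y) = eng n (f x) (f y) := by
  induction n with
  | zero => rfl
  | succ n ih => simp [eng, ih]

end Pool.Agent.H105R2.NE
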