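import Pool.Agent.H105R2.NE.Quo

/-! If a ring satisfies an identity `[x, ₙy] = g(x, y)` with `g` of degree at least two in `x`, and
is not Engel at `(x, y)`, then it has a quotient which is (an ideal of) a domain. -/

namespace Pool.Agent.H105R2.NE

/-- value of a noncommutative polynomial in two variables -/
noncomputable def evf {A : Type} [Ring A] (z : Fin 2 → A) (g : List (Fin 2) →₀ ℤ) : A :=
  g.sum fun w c => c • (w.map z).prod

/-- every word occurring in `g` contains the letter `0` at least twice -/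
def DegTwo (g : List (Fin 2) →₀ ℤ) : Prop := ∀ w, g w ≠ 0 → 2 ≤ w.count 0

theorem word_sq_aux {A : Type} [Ring A] (z : Fin 2 → A) (hz : ∀ s, z 0 * s * z 0 = 0)
    (w : List (Fin 2)) (hw : 1 ≤ w.count 0) : ∀ s, z 0 * s * (w.map z).prod = 0 := by
  induction w with
  | nil => simp at hw
  | cons l w ih =>
    intro s
    rw [List.map_cons, List.prod_cons]
    by_cases hl : l = 0
    · subst hl
      rw [← mul_assoc, hz, zero_mul]
    · rw [List.count_cons_of_ne (by exact hl)] at hw
      rw [← mul_assoc, mul_assoc (z 0) s, ih hw]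

theorem word_sq {A : Type} [Ring A] (z : Fin 2 → A) (hz : ∀ s, z 0 * s * z 0 = 0)
    (w : List (Fin 2)) (hw : 2 ≤ w.count 0) : (w.map z).prod = 0 := by
  induction w with
  | nil => simp at hw
  | cons l w ih =>
    rw [List.map_cons, List.prod_cons]
    by_cases hl : l = 0
    · subst hl
      rw [List.count_cons_self] at hw
      have := word_sq_aux z hz w (by omega) 1
      rwa [mul_one] at this
    · rw [List.count_cons_of_ne (by exact hl)] at hw
      rw [ih hw, mul_zero]

theorem word_nil_aux {A : Type} [Ring A] (z : Fin 2 → A) (h0 : z 0 * z 0 = 0)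
    (h1 : z 0 * z 1 = 0) (w : List (Fin 2)) (hw : w ≠ []) : z 0 * (w.map z).prod = 0 := by
  cases w with
  | nil => exact absurd rfl hw
  | cons l w =>
    rw [List.map_cons, List.prod_cons, ← mul_assoc]
    have : z 0 * z l = 0 := by
      fin_cases l
      · exact h0
      · exact h1
    rw [this, zero_mul]

theorem word_nil {A : Type} [Ring A] (z : Fin 2 → A) (h0 : z 0 * z 0 = 0)
    (h1 : z 0 * z 1 = 0) (w : List (Fin 2)) (hw : 2 ≤ w.count 0) : (w.map z).prod = 0 := by
  induction w with
  | nil => simp at hw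
  | cons l w ih =>
    rw [List.map_cons, List.prod_cons]
    by_cases hl : l = 0
    · subst hl
      rw [List.count_cons_self] at hw
      refine word_nil_aux z h0 h1 w ?_
      rintro rfl
      simp at hw
    · rw [List.count_cons_of_ne (by exact hl)] at hw
      rw [ih hw, mul_zero]

theorem evf_eq_zero {A : Type} [Ring A] (z : Fin 2 → A) (g : List (Fin 2) →₀ ℤ) (hg : DegTwo g)
    (h : ∀ w : List (Fin 2), 2 ≤ w.count 0 → (w.map z).prod = 0) : evf z g = 0 := by
  unfold evf
  rw [Finsupp.sum]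
  refine Finset.sum_eq_zero fun w hw => ?_
  rw [h w (hg w (Finsupp.mem_support_iff.1 hw)), smul_zero]

theorem evf_map {A B : Type} [Ring A] [Ring B] (f : A →+* B) (z : Fin 2 → A)
    (g : List (Fin 2) →₀ ℤ) : f (evf z g) = evf (fun i => f (z i)) g := by
  unfold evf
  rw [Finsupp.sum, Finsupp.sum, map_sum]
  refine Finset.sum_congr rfl fun w _ => ?_
  rw [map_zsmul, map_list_prod, List.map_map]
  rfl

theorem eng_add {A : Type} [NonUnitalRing A] (m k : ℕ) (x y : A) :
    eng (m + k) x y = eng k (eng m x y) y := by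
  induction k with
  | zero => rfl
  | succ k ih =>
    change eng ((m + k) + 1) x y = _
    simp only [eng]
    rw [ih]

theorem eng_zero_left {A : Type} [NonUnitalRing A] (k : ℕ) (y : A) : eng k 0 y = 0 := by
  induction k with
  | zero => rfl
  | succ k ih => simp [eng, ih]

theorem eng_mem {A : Type} [NonUnitalRing A] (I : TwoSidedIdeal A) (x y : A) (hx : x ∈ I) (k : ℕ) :
    eng k x y ∈ I := by
  induction k with
  | zero => exact hx
  | succ k ih => exact I.sub_mem (I.mul_mem_right _ _ ih) (I.mul_mem_left _ _ ih)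

theorem pow_expand {A : Type} [Ring A] (a b : A) (h : a * b = 0) (K : ℕ) :
    (a + b) ^ K = ∑ i ∈ Finset.range (K + 1), b ^ i * a ^ (K - i) := by
  induction K with
  | zero => simp
  | succ K ih =>
    rw [pow_succ', ih, add_mul, Finset.mul_sum, Finset.mul_sum, Finset.sum_range_succ']
    rw [Finset.sum_eq_zero (fun i _ => by
      rw [pow_succ' b, ← mul_assoc, ← mul_assoc a b, h]; simp)]
    rw [Finset.sum_range_succ' _ (K + 1)]
    simp only [pow_zero, one_mul, Nat.sub_zero, zero_add]
    rw [add_comm, ← pow_succ']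
    congr 1
    refine Finset.sum_congr rfl fun i _ => ?_
    rw [← mul_assoc, ← pow_succ', Nat.succ_sub_succ]

/-- Levitzki's lemma -/
theorem levitzki {A : Type} [Ring A] (sp : ∀ u : A, (∀ s, u * s * u = 0) → u = 0) (k : ℕ) :
    ∀ u : A, (∀ s, (u * s) ^ k * u = 0) → u = 0 := by
  induction k with
  | zero => intro u hu; simpa using hu 0
  | succ k ih =>
    intro u hu
    rcases k with _ | k
    · refine sp u fun s => ?_
      simpa using hu s
    · -- K = k + 2
      apply ih u
      intro y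
      apply ih
      intro x
      set v := (u * y) ^ (k + 1) * u with hv
      have hab : (u * y) * (v * x) = 0 := by
        rw [hv, ← mul_assoc, ← mul_assoc, ← pow_succ', hu y, zero_mul]
      have e1 : u * (y + y * (u * y) ^ k * u * x) = u * y + v * x := by
        rw [hv, pow_succ', mul_add]
        noncomm_ring
      have h1 := hu (y + y * (u * y) ^ k * u * x)
      rw [e1, pow_expand _ _ hab] at h1
      have h2 : (∑ i ∈ Finset.range (k + 1 + 1 + 1),
          (v * x) ^ i * (u * y) ^ (k + 1 + 1 - i)) * (u * y) ^ k * u = 0 := by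
        have e2 : (u * y) ^ k * u = u * (y * u) ^ k :=
          ((show SemiconjBy u (y * u) (u * y) from by
            unfold SemiconjBy; rw [mul_assoc]).pow_right k).eq.symm
        rw [mul_assoc, e2, ← mul_assoc, h1, zero_mul]
      have hbig : ∀ m, k + 2 ≤ m → (u * y) ^ m * u = 0 := by
        intro m hm
        obtain ⟨j, rfl⟩ := Nat.exists_eq_add_of_le hm
        rw [add_comm, pow_add, mul_assoc, hu y, mul_zero]
      rw [Finset.sum_mul, Finset.sum_mul, Finset.sum_range_succ, Finset.sum_range_succ] at h2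
      rw [Finset.sum_eq_zero (fun i hi => by
        rw [Finset.mem_range] at hi
        rw [mul_assoc ((v * x) ^ i), ← pow_add, mul_assoc, hbig _ (by omega), mul_zero])] at h2
      have e3 : k + 1 + 1 - (k + 1) = 1 := by omega
      rw [e3, Nat.sub_self, pow_zero, mul_one, zero_add, pow_one] at h2
      have e4 : (v * x) ^ (k + 1) * (u * y) * (u * y) ^ k * u = (v * x) ^ (k + 1) * v := by
        rw [hv, pow_succ' (u * y) k]
        simp only [mul_assoc]
      have e5 : (v * x) ^ (k + 1 + 1) * (u * y) ^ k * u = 0 := by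
        have h6 : (v * x) ^ (k + 1 + 1) * u = 0 := by
          have h7 := hu (y * (u * y) ^ k * u * x)
          have h8 : u * (y * (u * y) ^ k * u * x) = v * x := by
            rw [hv, pow_succ']; simp only [mul_assoc]
          rwa [h8] at h7
        have e2 : (u * y) ^ k * u = u * (y * u) ^ k :=
          ((show SemiconjBy u (y * u) (u * y) from by
            unfold SemiconjBy; rw [mul_assoc]).pow_right k).eq.symm
        rw [mul_assoc, e2, ← mul_assoc, h6, zero_mul]
      rw [e4, e5, add_zero] at h2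
      exact h2

/-- The situation obtained from a maximal ideal avoiding the elements `[x, ₘy]`. -/
structure Setup (n : ℕ) (g : List (Fin 2) →₀ ℤ) (A : Type) [Ring A] where
  S : TwoSidedIdeal A
  x : A
  y : A
  hx : x ∈ S
  hy : y ∈ S
  hne : ∀ m, eng m x y ≠ 0
  hid : ∀ a ∈ S, ∀ b ∈ S, eng n a b = evf ![a, b] g
  hI : ∀ I : TwoSidedIdeal A, (∃ z ∈ I, z ≠ 0) → ∃ m, eng m x y ∈ I

/-- the inclusion of a ring into its unitization -/
def inrH (R : Type) [NonUnitalRing R] : R →ₙ+* Unitization ℤ R where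
  toFun := fun r => (r : Unitization ℤ R)
  map_mul' := Unitization.inr_mul ℤ
  map_zero' := Unitization.inr_zero ℤ
  map_add' := Unitization.inr_add ℤ

@[simp] theorem inrH_apply {R : Type} [NonUnitalRing R] (r : R) :
    inrH R r = (r : Unitization ℤ R) := rfl

theorem exists_setup (n : ℕ) (g : List (Fin 2) →₀ ℤ) (R : Type) [NonUnitalRing R]
    (hR : ∀ a b : R, eng n (a : Unitization ℤ R) (b : Unitization ℤ R)
      = evf ![(a : Unitization ℤ R), (b : Unitization ℤ R)] g)
    (x y : R) (hxy : ∀ m, eng m x y ≠ 0) : ∃ (A : Type) (_ : Ring A), Nonempty (Setup n g A) := by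
  set i : R →ₙ+* Unitization ℤ R := inrH R with hidef
  have hi : Function.Injective i := Unitization.inr_injective
  have hW0 : (0 : Unitization ℤ R) ∉ Set.range (fun m => i (eng m x y)) := by
    rintro ⟨m, hm⟩
    exact hxy m (hi (by simpa using hm))
  obtain ⟨P, hP1, hP2⟩ := exists_maximal_avoiding (Set.range (fun m => i (eng m x y))) hW0
  let π : Unitization ℤ R →+* P.ringCon.Quotient := P.ringCon.mk'
  have hπs : Function.Surjective π := P.ringCon.mk'_surjective
  have hπ0 : ∀ z, π z = 0 ↔ z ∈ P := fun z => quo_eq_zero P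
  let S : TwoSidedIdeal P.ringCon.Quotient := TwoSidedIdeal.mk' (Set.range fun r => π (i r))
    ⟨0, by simp⟩
    (by rintro _ _ ⟨a, rfl⟩ ⟨b, rfl⟩; exact ⟨a + b, by simp⟩)
    (by rintro _ ⟨a, rfl⟩; exact ⟨-a, by simp⟩)
    (by
      rintro z _ ⟨a, rfl⟩
      obtain ⟨z, rfl⟩ := hπs z
      refine ⟨z.fst • a + z.snd * a, ?_⟩
      simp only
      rw [← map_mul]
      congr 1
      rw [hidef, inrH_apply, inrH_apply]
      ext <;> simp [-zsmul_eq_mul])
    (by
      rintro _ z ⟨a, rfl⟩
      obtain ⟨z, rfl⟩ := hπs z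
      refine ⟨z.fst • a + a * z.snd, ?_⟩
      simp only
      rw [← map_mul]
      congr 1
      rw [hidef, inrH_apply, inrH_apply]
      ext <;> simp [-zsmul_eq_mul])
  have hS : ∀ z, z ∈ S ↔ z ∈ Set.range fun r => π (i r) := fun z => TwoSidedIdeal.mem_mk' ..
  have hmap : ∀ m (a b : R), eng m (π (i a)) (π (i b)) = π (i (eng m a b)) := by
    intro m a b
    rw [eng_map (S := Unitization ℤ R) i]
    exact (eng_map (π : Unitization ℤ R →ₙ+* P.ringCon.Quotient) m (i a) (i b)).symm
  refine ⟨P.ringCon.Quotient, inferInstance, ⟨⟨S, π (i x), π (i y), ?_, ?_, ?_, ?_, ?_⟩⟩⟩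
  · exact (hS _).2 ⟨x, rfl⟩
  · exact (hS _).2 ⟨y, rfl⟩
  · intro m
    rw [hmap, Ne, hπ0]
    intro h
    exact hP1 _ h ⟨m, rfl⟩
  · intro a ha b hb
    rw [hS] at ha hb
    obtain ⟨a, rfl⟩ := ha
    obtain ⟨b, rfl⟩ := hb
    have h1 := congrArg π (hR a b)
    rw [evf_map (A := Unitization ℤ R) π] at h1
    change eng n (π (i a)) (π (i b)) = _
    rw [hmap, eng_map (S := Unitization ℤ R) i]
    refine h1.trans ?_
    congr 1
    funext j
    fin_cases j <;> rfl
  · rintro I ⟨z, hz, hz0⟩
    by_contra hcon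
    push Not at hcon
    obtain ⟨z, rfl⟩ := hπs z
    rw [Ne, hπ0] at hz0
    apply hz0
    refine hP2 (I.comap π) ?_ ?_ ?_
    · intro w hw
      rw [TwoSidedIdeal.mem_comap, (hπ0 w).2 hw]
      exact I.zero_mem
    · rintro w hw ⟨m, rfl⟩
      rw [TwoSidedIdeal.mem_comap] at hw
      apply hcon m
      rw [hmap]
      exact hw
    · rw [TwoSidedIdeal.mem_comap]; exact hz

namespace Setup

variable {n : ℕ} {g : List (Fin 2) →₀ ℤ} {A : Type} [Ring A] (D : Setup n g A)

include D

theorem mem_of_le (I : TwoSidedIdeal A) {m m' : ℕ} (h : eng m D.x D.y ∈ I) (hm : m ≤ m') :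
    eng m' D.x D.y ∈ I := by
  obtain ⟨k, rfl⟩ := Nat.exists_eq_add_of_le hm
  rw [eng_add]
  exact eng_mem I _ _ h k

theorem engS (m : ℕ) : eng m D.x D.y ∈ D.S := eng_mem _ _ _ D.hx m

theorem no_sq (hg : DegTwo g) (m : ℕ)
    (h : ∀ s, eng m D.x D.y * s * eng m D.x D.y = 0) : False := by
  apply D.hne (m + n)
  rw [eng_add, D.hid _ (D.engS m) _ D.hy]
  exact evf_eq_zero _ g hg fun w hw => word_sq _ h w hw

theorem prime (hg : DegTwo g) (a b : A) (h : ∀ s, a * s * b = 0) : a = 0 ∨ b = 0 := by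
  by_contra hcon
  push Not at hcon
  obtain ⟨ha, hb⟩ := hcon
  let N : TwoSidedIdeal A := TwoSidedIdeal.mk' {i | ∀ s, i * s * b = 0}
    (by intro s; simp)
    (by intro x y hx hy s; rw [add_mul, add_mul, hx s, hy s, add_zero])
    (by intro x hx s; rw [neg_mul, neg_mul, hx s, neg_zero])
    (by intro x y hy s; rw [mul_assoc x, mul_assoc x, hy s, mul_zero])
    (by intro x y hx s; rw [mul_assoc x, hx])
  have hN : ∀ i, i ∈ N ↔ ∀ s, i * s * b = 0 := fun i => TwoSidedIdeal.mem_mk' ..
  let M : TwoSidedIdeal A := TwoSidedIdeal.mk' {j | ∀ i ∈ N, ∀ s, i * s * j = 0}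
    (by intro i _ s; simp)
    (by intro x y hx hy i hi s; rw [mul_add, hx i hi s, hy i hi s, add_zero])
    (by intro x hx i hi s; rw [mul_neg, hx i hi s, neg_zero])
    (by intro x y hy i hi s; rw [← mul_assoc, mul_assoc i, hy i hi])
    (by intro x y hx i hi s; rw [← mul_assoc, hx i hi, zero_mul])
  have hM : ∀ j, j ∈ M ↔ ∀ i ∈ N, ∀ s, i * s * j = 0 := fun i => TwoSidedIdeal.mem_mk' ..
  obtain ⟨m1, h1⟩ := D.hI N ⟨a, (hN a).2 h, ha⟩
  obtain ⟨m2, h2⟩ := D.hI M ⟨b, (hM b).2 fun i hi => (hN i).1 hi, hb⟩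
  have h3 := D.mem_of_le N h1 (le_max_left m1 m2)
  have h4 := D.mem_of_le M h2 (le_max_right m1 m2)
  exact D.no_sq hg _ fun s => (hM _).1 h4 _ h3 s

omit D in
theorem eng_nil (k : ℕ) (b s : A) (hb : b * b = 0) :
    eng k b (b * s) = (-1) ^ k * (b * s) ^ k * b := by
  induction k with
  | zero => simp [eng]
  | succ k ih =>
    simp only [eng]
    rw [ih, pow_succ' (-1 : A), pow_succ' (b * s)]
    have : (-1 : A) ^ k * (b * s) ^ k * b * (b * s) = 0 := by
      rw [mul_assoc, ← mul_assoc b b, hb]; simp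
    rw [this, zero_sub]
    have h2 : Commute (b * s) ((-1 : A) ^ k) := ((Commute.one_right _).neg_right).pow_right k
    rw [← mul_assoc (b * s), ← mul_assoc (b * s), h2.eq]
    noncomm_ring

theorem reduced (hg : DegTwo g) (a : A) (ha : a * a = 0) : a = 0 := by
  by_contra ha0
  have hx0 : D.x ≠ 0 := D.hne 0
  obtain ⟨s1, h1⟩ : ∃ s, a * s * D.x ≠ 0 := by
    by_contra hcon
    push Not at hcon
    rcases D.prime hg a D.x hcon with h | h
    · exact ha0 h
    · exact hx0 h
  obtain ⟨s2, h2⟩ : ∃ s, (a * s1 * D.x) * s * a ≠ 0 := by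
    by_contra hcon
    push Not at hcon
    rcases D.prime hg _ _ hcon with h | h
    · exact h1 h
    · exact ha0 h
  set b := (a * s1 * D.x) * s2 * a with hb
  have hbS : b ∈ D.S :=
    D.S.mul_mem_right _ _ (D.S.mul_mem_right _ _ (D.S.mul_mem_left _ _ D.hx))
  have hbb : b * b = 0 := by
    have : b * b = (a * s1 * D.x) * s2 * (a * a) * (s1 * D.x * s2 * a) := by
      rw [hb]; noncomm_ring
    rw [this, ha]; simp
  apply h2
  refine levitzki (fun u hu => ?_) n b ?_
  · rcases D.prime hg u u hu with h | h <;> exact h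
  · intro s
    have h3 := D.hid b hbS (b * s) (D.S.mul_mem_right _ _ hbS)
    rw [eng_nil n b s hbb, evf_eq_zero _ g hg fun w hw => word_nil _ hbb
      (by change b * (b * s) = 0; rw [← mul_assoc, hbb, zero_mul]) w hw] at h3
    rw [mul_assoc] at h3
    have h4 : ((-1 : A) ^ n) * ((-1 : A) ^ n * ((b * s) ^ n * b)) = 0 := by rw [h3, mul_zero]
    rw [← mul_assoc, ← pow_add] at h4
    rw [Even.neg_one_pow ⟨n, rfl⟩, one_mul] at h4
    exact h4

theorem noZeroDiv (hg : DegTwo g) (a b : A) (h : a * b = 0) : a = 0 ∨ b = 0 := by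
  have h1 : ∀ s, b * s * a = 0 := by
    intro s
    apply D.reduced hg
    have : b * s * a * (b * s * a) = b * s * (a * b) * (s * a) := by noncomm_ring
    rw [this, h]; simp
  rcases D.prime hg b a h1 with h | h
  · exact Or.inr h
  · exact Or.inl h

theorem isDomain (hg : DegTwo g) : IsDomain A := by
  have : Nontrivial A := ⟨⟨D.x, 0, D.hne 0⟩⟩
  have : NoZeroDivisors A := ⟨fun {a b} h => D.noZeroDiv hg a b h⟩
  exact NoZeroDivisors.to_isDomain A

end Setup

end Pool.Agent.H105R2.NE
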