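import Pool.Agent.H105R2.NE.Vand

/-! Infinite domains with small extended centroid satisfy no multilinear identity. -/

namespace Pool.Agent.H105R2.NE

open scoped Pointwise

/-- linear independence over the extended centroid -/
def Ind {A : Type} [Ring A] (a0 : A) {ι : Type} [Fintype ι] (e : ι → A) : Prop :=
  ∀ β : ι → A, (∀ i, β i ∈ LL a0) → ∑ i, β i * e i = 0 → ∀ i, β i = 0

theorem LL_surj {A : Type} [Ring A] [IsDomain A] {a0 a1 : A} (ha0 : a0 ≠ 0) (ha1 : a1 ≠ 0)
    (hfin : ∀ a : A, a ≠ 0 → (LL a).Finite ∧ (LL a).ncard ≤ (LL a0).ncard) {r : A}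
    (hr : r ∈ LL a1) : ∃ β ∈ LL a0, a0 * r = β * a1 := by
  have h1 : (fun β => β * a1) '' LL a0 ⊆ LL (a0 * a1) := by
    rintro _ ⟨β, hβ, rfl⟩
    exact LL_mul_right a1 hβ
  have hne : a0 * a1 ≠ 0 := mul_ne_zero ha0 ha1
  have hinj : Function.Injective (fun β : A => β * a1) := mul_left_injective₀ ha1
  have h2 : (fun β => β * a1) '' LL a0 = LL (a0 * a1) := by
    refine Set.eq_of_subset_of_ncard_le h1 ?_ (hfin _ hne).1
    rw [Set.ncard_image_of_injective _ hinj]
    exact (hfin _ hne).2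
  have h3 : a0 * r ∈ LL (a0 * a1) := LL_mul_left a0 hr
  rw [← h2] at h3
  obtain ⟨β, hβ, h⟩ := h3
  exact ⟨β, hβ, h.symm⟩

theorem finite_range_lemma {A : Type} [Ring A] [IsDomain A] {a0 : A} (ha0 : a0 ≠ 0)
    (hfin : ∀ a : A, a ≠ 0 → (LL a).Finite ∧ (LL a).ncard ≤ (LL a0).ncard)
    (S : TwoSidedIdeal A) (hS : Infinite S) {ι : Type} [Fintype ι] (e : ι → A) (he : Ind a0 e)
    (n : ℕ) : ∀ l : ι → A, (Set.range fun x : S => ∑ i, l i * x * e i).Finite →
      {i | l i ≠ 0}.ncard = n → ∀ i, l i = 0 := by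
  classical
  induction n using Nat.strong_induction_on with
  | _ n ih =>
  intro l hl hn i1
  by_contra hi1
  set a1 := l i1 with ha1
  have hprop : ∀ i, l i ∈ LL a1 := by
    intro i c
    have key : ∀ j, a1 * c * l j - l j * c * a1 = 0 := by
      refine ih _ ?_ (fun j => a1 * c * l j - l j * c * a1) ?_ rfl
      · rw [← hn]
        apply Set.ncard_lt_ncard _ (Set.toFinite _)
        refine ⟨?_, ?_⟩
        · intro j hj hj0
          apply hj
          simp [hj0]
        · intro hsub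
          have : i1 ∈ {i | a1 * c * l i - l i * c * a1 ≠ 0} := hsub hi1
          apply this
          simp [← ha1]
      · refine Set.Finite.subset (Set.Finite.image2 (fun p q => a1 * c * p - q) hl hl) ?_
        rintro _ ⟨x, rfl⟩
        refine ⟨_, ⟨x, rfl⟩, _, ⟨⟨c * a1 * x, S.mul_mem_left _ _ x.2⟩, rfl⟩, ?_⟩
        simp only
        rw [Finset.mul_sum, ← Finset.sum_sub_distrib]
        refine Finset.sum_congr rfl fun j _ => ?_
        noncomm_ring
    exact sub_eq_zero.1 (key i)
  choose β hβL hβ using fun i => LL_surj ha0 hi1 hfin (hprop i)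
  have hE : (∑ i, e i * β i) ≠ 0 := by
    intro h0
    have h1 : (∑ i, β i * e i) = 0 := by
      have h2 : (∑ i, β i * e i) * a0 = 0 := by
        rw [Finset.sum_mul]
        have : ∀ i, β i * e i * a0 = a0 * (e i * β i) := by
          intro i; rw [← hβL i (e i), mul_assoc]
        rw [Finset.sum_congr rfl fun i _ => this i, ← Finset.mul_sum, h0, mul_zero]
      exact (mul_eq_zero.1 h2).resolve_right ha0
    have h3 := he β hβL h1 i1
    have h4 := hβ i1
    rw [h3, zero_mul] at h4
    exact mul_ne_zero ha0 hi1 h4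
  have hfin2 : (Set.range fun x : S => a0 * a1 * x * (∑ i, e i * β i)).Finite := by
    refine Set.Finite.subset (hl.image fun p => a0 * p * a0) ?_
    rintro _ ⟨x, rfl⟩
    refine ⟨_, ⟨x, rfl⟩, ?_⟩
    simp only
    rw [Finset.mul_sum, Finset.sum_mul, Finset.mul_sum]
    refine Finset.sum_congr rfl fun i _ => ?_
    have h1 : a0 * (l i * x * e i) * a0 = (a0 * l i) * x * e i * a0 := by noncomm_ring
    rw [h1, hβ i]
    have h2 := hβL i (a1 * x * e i)
    calc β i * a1 * x * e i * a0 = β i * (a1 * x * e i) * a0 := by noncomm_ring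
      _ = a0 * (a1 * x * e i) * β i := h2.symm
      _ = _ := by noncomm_ring
  have hinj : Function.Injective fun x : S => a0 * a1 * x * (∑ i, e i * β i) := by
    intro x y hxy
    have h1 := mul_right_cancel₀ hE hxy
    exact Subtype.ext (mul_left_cancel₀ (mul_ne_zero ha0 hi1) h1)
  exact Set.infinite_range_of_injective hinj hfin2

theorem step_lemma {A : Type} [Ring A] [IsDomain A] {a0 : A} (ha0 : a0 ≠ 0)
    (hfin : ∀ a : A, a ≠ 0 → (LL a).Finite ∧ (LL a).ncard ≤ (LL a0).ncard)
    (S : TwoSidedIdeal A) (hS : Infinite S) {ι : Type} [Fintype ι] (e : ι → A) (he : Ind a0 e) :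
    ∃ x : S, ∀ (β : ι → A) (γ : ι → ι → A), (∀ i, β i ∈ LL a0) → (∀ i j, γ i j ∈ LL a0) →
      ∑ i, β i * e i + ∑ i, ∑ j, γ i j * e i * x * e j = 0 →
        (∀ i, β i = 0) ∧ (∀ i j, γ i j = 0) := by
  classical
  by_contra hcon
  push Not at hcon
  have hLfin : Finite (LL a0) := (hfin a0 ha0).1
  let T := (ι → LL a0) × (ι → ι → LL a0)
  have : Finite T := inferInstance
  have := Fintype.ofFinite T
  let ψ : T → (S →+ A) := fun τ =>
    { toFun := fun x => ∑ i, ∑ j, (τ.2 i j : A) * e i * x * e j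
      map_zero' := by simp
      map_add' := by
        intro x y
        rw [← Finset.sum_add_distrib]
        refine Finset.sum_congr rfl fun i _ => ?_
        rw [← Finset.sum_add_distrib]
        refine Finset.sum_congr rfl fun j _ => ?_
        change (τ.2 i j : A) * e i * ((x : A) + y) * e j = _
        rw [mul_add, add_mul] }
  have hψ : ∀ τ (x : S), ψ τ x = ∑ i, ∑ j, (τ.2 i j : A) * e i * x * e j := fun _ _ => rfl
  let T' : Finset T := Finset.univ.filter fun τ => ∃ i j, (τ.2 i j : A) ≠ 0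
  let pt : T → S := fun τ =>
    if h : ∃ x : S, ∑ i, (τ.1 i : A) * e i + ψ τ x = 0 then h.choose else 0
  have hcover : ⋃ τ ∈ T', pt τ +ᵥ ((ψ τ).ker : Set S) = Set.univ := by
    rw [Set.eq_univ_iff_forall]
    intro x
    obtain ⟨β, γ, hβ, hγ, hsum, hne⟩ := hcon x
    let τ : T := (fun i => ⟨β i, hβ i⟩, fun i j => ⟨γ i j, hγ i j⟩)
    have hτ : ∃ x : S, ∑ i, (τ.1 i : A) * e i + ψ τ x = 0 := ⟨x, hsum⟩
    have hτ' : τ ∈ T' := by
      refine Finset.mem_filter.2 ⟨Finset.mem_univ _, ?_⟩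
      by_contra hall
      push Not at hall
      have hβ0 : ∀ i, β i = 0 := by
        apply he β hβ
        have h2 : ∑ i, ∑ j, γ i j * e i * x * e j = 0 := by
          refine Finset.sum_eq_zero fun i _ => Finset.sum_eq_zero fun j _ => ?_
          have : γ i j = 0 := hall i j
          rw [this]; simp
        rw [h2, add_zero] at hsum
        exact hsum
      obtain ⟨i, j, hij⟩ := hne hβ0
      exact hij (hall i j)
    refine Set.mem_iUnion₂.2 ⟨τ, hτ', ?_⟩
    rw [Set.mem_vadd_set_iff_neg_vadd_mem]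
    change ψ τ (-(pt τ) + x) = 0
    have hpt : ∑ i, (τ.1 i : A) * e i + ψ τ (pt τ) = 0 := by
      simp only [pt, dif_pos hτ]
      exact hτ.choose_spec
    rw [map_add, map_neg]
    have hsum' : ∑ i, (τ.1 i : A) * e i + ψ τ x = 0 := hsum
    have := hsum'.trans hpt.symm
    rw [add_right_inj] at this
    rw [this, neg_add_cancel]
  obtain ⟨τ, hτ, hfi⟩ := AddSubgroup.exists_finiteIndex_of_leftCoset_cover hcover
  obtain ⟨i, j, hij⟩ := (Finset.mem_filter.1 hτ).2
  -- the range of ψ τ is finite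
  have hrange : (Set.range (ψ τ)).Finite := by
    have h1 : Finite (S ⧸ (ψ τ).ker) := AddSubgroup.finite_quotient_of_finiteIndex
    have h2 : Finite (ψ τ).range :=
      Finite.of_equiv _ (QuotientAddGroup.quotientKerEquivRange (ψ τ)).toEquiv
    exact h2
  have hzero : ∀ j, ∑ i, (τ.2 i j : A) * e i = 0 := by
    refine finite_range_lemma ha0 hfin S hS e he _ (fun j => ∑ i, (τ.2 i j : A) * e i) ?_ rfl
    refine hrange.subset ?_
    rintro _ ⟨x, rfl⟩
    refine ⟨x, ?_⟩
    rw [hψ, Finset.sum_comm]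
    refine Finset.sum_congr rfl fun j _ => ?_
    rw [Finset.sum_mul, Finset.sum_mul]
  exact hij (he (fun i => (τ.2 i j : A)) (fun i => (τ.2 i j).2) (hzero j) i)

end Pool.Agent.H105R2.NE
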