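import Pool.Agent.H105R2.NE.Gen

/-! Words in distinct letters, multilinearization, and the conclusion. -/

namespace Pool.Agent.H105R2.NE

/-- a finite set of words containing all words with distinct letters below `d` -/
def WD : ℕ → Finset (List ℕ)
  | 0 => {[]}
  | d + 1 => WD d ∪ ((WD d) ×ˢ (WD d)).image fun p => p.1 ++ d :: p.2

theorem WD_lt (d : ℕ) : ∀ w ∈ WD d, ∀ i ∈ w, i < d := by
  induction d with
  | zero =>
    intro w hw i hi
    simp only [WD, Finset.mem_singleton] at hw
    subst hw
    simp at hi
  | succ d ih =>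
    intro w hw i hi
    simp only [WD, Finset.mem_union, Finset.mem_image, Finset.mem_product] at hw
    rcases hw with hw | ⟨⟨u, v⟩, ⟨hu, hv⟩, rfl⟩
    · exact Nat.lt_succ_of_lt (ih w hw i hi)
    · simp only [List.mem_append, List.mem_cons] at hi
      rcases hi with hi | rfl | hi
      · exact Nat.lt_succ_of_lt (ih u hu i hi)
      · exact Nat.lt_succ_self _
      · exact Nat.lt_succ_of_lt (ih v hv i hi)

theorem mem_WD (d : ℕ) : ∀ w : List ℕ, w.Nodup → (∀ i ∈ w, i < d) → w ∈ WD d := by
  induction d with
  | zero =>
    intro w _ hw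
    have : w = [] := List.eq_nil_iff_forall_not_mem.2 fun i hi => absurd (hw i hi) (Nat.not_lt_zero _)
    subst this
    simp [WD]
  | succ d ih =>
    intro w hnd hw
    simp only [WD, Finset.mem_union, Finset.mem_image, Finset.mem_product]
    by_cases hd : d ∈ w
    · right
      obtain ⟨u, v, rfl⟩ := List.append_of_mem hd
      rw [List.nodup_append] at hnd
      obtain ⟨h1, h2, h3⟩ := hnd
      rw [List.nodup_cons] at h2
      refine ⟨(u, v), ⟨ih u h1 ?_, ih v h2.2 ?_⟩, rfl⟩
      · intro i hi
        have hlt := hw i (by simp [hi])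
        have hne : i ≠ d := h3 i hi d (List.mem_cons_self ..)
        omega
      · intro i hi
        have hlt := hw i (by simp [hi])
        have hne : i ≠ d := fun h => h2.1 (h ▸ hi)
        omega
    · left
      refine ih w hnd fun i hi => ?_
      have hlt := hw i hi
      have hne : i ≠ d := fun h => hd (h ▸ hi)
      omega

theorem map_update_of_lt {A : Type} (c : ℕ → A) (d : ℕ) (x : A) (w : List ℕ)
    (hw : ∀ i ∈ w, i < d) : w.map (Function.update c d x) = w.map c := by
  refine List.map_congr_left fun i hi => ?_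
  exact Function.update_of_ne (hw i hi).ne _ _

theorem words_indep {A : Type} [Ring A] [IsDomain A] {a0 : A} (ha0 : a0 ≠ 0)
    (hfin : ∀ a : A, a ≠ 0 → (LL a).Finite ∧ (LL a).ncard ≤ (LL a0).ncard)
    (S : TwoSidedIdeal A) (hS : Infinite S) (d : ℕ) :
    ∃ c : ℕ → A, (∀ i, c i ∈ S) ∧ ∀ β : List ℕ → A, (∀ w, β w ∈ LL a0) →
      ∑ w ∈ WD d, β w * (w.map c).prod = 0 → ∀ w ∈ WD d, β w = 0 := by
  classical
  induction d with
  | zero =>
    refine ⟨fun _ => 0, fun _ => S.zero_mem, ?_⟩
    intro β _ h w hw
    simp only [WD, Finset.sum_singleton, List.map_nil, List.prod_nil, mul_one,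
      Finset.mem_singleton] at h hw
    rw [hw]; exact h
  | succ d ih =>
    obtain ⟨c, hcS, hc⟩ := ih
    let e : ↥(WD d) → A := fun w => ((w : List ℕ).map c).prod
    have he : Ind a0 e := by
      intro β hβ hsum w
      let β' : List ℕ → A := fun w => if h : w ∈ WD d then β ⟨w, h⟩ else 0
      have h1 : ∀ w : ↥(WD d), β' w = β w := fun w => by simp [β']
      have h2 : ∀ w, β' w ∈ LL a0 := by
        intro w
        simp only [β']
        split_ifs
        · exact hβ _
        · exact LL_zero a0
      rw [← h1 w]
      refine hc β' h2 ?_ w w.2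
      rw [← Finset.sum_coe_sort]
      rw [← hsum]
      refine Finset.sum_congr rfl fun w _ => ?_
      rw [h1]
    obtain ⟨x, hx⟩ := step_lemma ha0 hfin S hS e he
    refine ⟨Function.update c d x, ?_, ?_⟩
    · intro i
      by_cases hi : i = d
      · subst hi; rw [Function.update_self]; exact x.2
      · rw [Function.update_of_ne hi]; exact hcS i
    · intro β hβ hsum
      have hdisj : Disjoint (WD d) (((WD d) ×ˢ (WD d)).image fun p => p.1 ++ d :: p.2) := by
        rw [Finset.disjoint_left]
        intro w hw hw'
        obtain ⟨p, _, rfl⟩ := Finset.mem_image.1 hw'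
        have := WD_lt d _ hw d (by simp)
        omega
      have hinj : Set.InjOn (fun p : List ℕ × List ℕ => p.1 ++ d :: p.2)
          (((WD d) ×ˢ (WD d) : Finset (List ℕ × List ℕ)) : Set (List ℕ × List ℕ)) := by
        rintro ⟨u, v⟩ hp ⟨u', v'⟩ hp' heq
        simp only [Finset.coe_product, Set.mem_prod, Finset.mem_coe] at hp hp'
        have h1 : d ∉ u' := fun h => by have := WD_lt d _ hp'.1 d h; omega
        have h2 : d ∉ v' := fun h => by have := WD_lt d _ hp'.2 d h; omega
        have h3 : d ∉ u := fun h => by have := WD_lt d _ hp.1 d h; omega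
        have h4 : d ∉ v := fun h => by have := WD_lt d _ hp.2 d h; omega
        have := (List.append_cons_inj_of_notMem h3 h4).1 heq
        exact Prod.ext this.1 this.2.2
      simp only [WD] at hsum ⊢
      rw [Finset.sum_union hdisj, Finset.sum_image hinj, Finset.sum_product] at hsum
      have e1 : ∑ w ∈ WD d, β w * (w.map (Function.update c d x)).prod
          = ∑ w : ↥(WD d), β w * e w := by
        rw [← Finset.sum_coe_sort]
        refine Finset.sum_congr rfl fun w _ => ?_
        rw [map_update_of_lt c d x w (WD_lt d w w.2)]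
      have e2 : ∑ u ∈ WD d, ∑ v ∈ WD d, β (u ++ d :: v)
            * ((u ++ d :: v).map (Function.update c d x)).prod
          = ∑ u : ↥(WD d), ∑ v : ↥(WD d), β (u ++ d :: v) * e u * x * e v := by
        rw [← Finset.sum_coe_sort]
        refine Finset.sum_congr rfl fun u _ => ?_
        rw [← Finset.sum_coe_sort]
        refine Finset.sum_congr rfl fun v _ => ?_
        rw [List.map_append, List.map_cons, List.prod_append, List.prod_cons,
          map_update_of_lt c d x u (WD_lt d u u.2), map_update_of_lt c d x v (WD_lt d v v.2),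
          Function.update_self]
        simp only [e, mul_assoc]
      rw [e1] at hsum
      rw [e2] at hsum
      obtain ⟨h1, h2⟩ := hx (fun w => β w) (fun u v => β (u ++ d :: v)) (fun _ => hβ _)
        (fun _ _ => hβ _) hsum
      intro w hw
      rcases Finset.mem_union.1 hw with hw | hw
      · exact h1 ⟨w, hw⟩
      · obtain ⟨⟨u, v⟩, hp, rfl⟩ := Finset.mem_image.1 hw
        rw [Finset.mem_product] at hp
        exact h2 ⟨u, hp.1⟩ ⟨v, hp.2⟩

end Pool.Agent.H105R2.NE
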