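import Pool.Agent.H105R2.NE.Lin

/-! Multilinearization, and the conclusion. -/

namespace Pool.Agent.H105R2.NE

/-- lists of letters below `N` lying over a given word -/
def RL (N : ℕ) (W0 : ℕ → Fin 2) : List (Fin 2) → Finset (List ℕ)
  | [] => {[]}
  | l :: v => (((Finset.range N).filter fun i => W0 i = l) ×ˢ RL N W0 v).image fun p => p.1 :: p.2

theorem mem_RL (N : ℕ) (W0 : ℕ → Fin 2) (v : List (Fin 2)) :
    ∀ r, r ∈ RL N W0 v ↔ r.map W0 = v ∧ ∀ i ∈ r, i < N := by
  induction v with
  | nil =>
    intro r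
    simp only [RL, Finset.mem_singleton, List.map_eq_nil_iff]
    constructor
    · rintro rfl; simp
    · exact fun h => h.1
  | cons l v ih =>
    intro r
    simp only [RL, Finset.mem_image, Finset.mem_product, Finset.mem_filter, Finset.mem_range]
    constructor
    · rintro ⟨⟨i, r'⟩, ⟨⟨hi, hl⟩, hr'⟩, rfl⟩
      obtain ⟨h1, h2⟩ := (ih r').1 hr'
      refine ⟨by rw [List.map_cons, hl, h1], ?_⟩
      intro j hj
      rcases List.mem_cons.1 hj with rfl | hj
      · exact hi
      · exact h2 j hj
    · rintro ⟨h1, h2⟩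
      cases r with
      | nil => simp at h1
      | cons i r' =>
        rw [List.map_cons, List.cons.injEq] at h1
        exact ⟨(i, r'), ⟨⟨h2 i (List.mem_cons_self ..), h1.1⟩,
          (ih r').2 ⟨h1.2, fun j hj => h2 j (List.mem_cons_of_mem _ hj)⟩⟩, rfl⟩

theorem RL_sum {A : Type} [Ring A] (N : ℕ) (W0 : ℕ → Fin 2) (c : ℕ → A) (v : List (Fin 2)) :
    ∑ r ∈ RL N W0 v, (r.map c).prod
      = (v.map fun l => ∑ i ∈ (Finset.range N).filter (fun i => W0 i = l), c i).prod := by
  induction v with
  | nil => simp [RL]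
  | cons l v ih =>
    rw [List.map_cons, List.prod_cons, ← ih, Finset.sum_mul_sum, ← Finset.sum_product']
    simp only [RL]
    rw [Finset.sum_image (by
      rintro ⟨i, r⟩ _ ⟨i', r'⟩ _ h
      simp only [List.cons.injEq] at h
      exact Prod.ext h.1 h.2)]
    refine Finset.sum_congr rfl fun p _ => ?_
    rw [List.map_cons, List.prod_cons]

theorem elim {A : Type} [Ring A] (S : TwoSidedIdeal A) (R : Finset (List ℕ)) (γ : List ℕ → A)
    (h : ∀ c : ℕ → A, (∀ i, c i ∈ S) → ∑ r ∈ R, γ r * (r.map c).prod = 0) (I : Finset ℕ) :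
    ∀ c : ℕ → A, (∀ i, c i ∈ S) →
      ∑ r ∈ R.filter (fun r => ∀ i ∈ I, i ∈ r), γ r * (r.map c).prod = 0 := by
  induction I using Finset.induction_on with
  | empty => intro c hc; simpa using h c hc
  | insert i I hiI ih =>
    intro c hc
    have e : ∀ c : ℕ → A, ∑ r ∈ R.filter (fun r => ∀ j ∈ insert i I, j ∈ r),
          γ r * (r.map c).prod
        = ∑ r ∈ (R.filter (fun r => ∀ j ∈ I, j ∈ r)).filter (fun r => i ∈ r),
          γ r * (r.map c).prod := by
      intro c
      rw [Finset.filter_filter]
      refine Finset.sum_congr ?_ fun _ _ => rfl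
      ext r
      simp only [Finset.mem_filter, Finset.mem_insert, forall_eq_or_imp]
      tauto
    rw [e]
    have h1 := ih c hc
    rw [← Finset.sum_filter_add_sum_filter_not _ (fun r => i ∈ r)] at h1
    have h2 := ih (Function.update c i 0) (fun j => by
      by_cases hj : j = i
      · subst hj; rw [Function.update_self]; exact S.zero_mem
      · rw [Function.update_of_ne hj]; exact hc j)
    rw [← Finset.sum_filter_add_sum_filter_not _ (fun r => i ∈ r)] at h2
    rw [Finset.sum_eq_zero (fun r hr => by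
      rw [List.prod_eq_zero, mul_zero]
      refine List.mem_map.2 ⟨i, (Finset.mem_filter.1 hr).2, ?_⟩
      rw [Function.update_self]), zero_add] at h2
    have h3 : ∑ r ∈ (R.filter (fun r => ∀ j ∈ I, j ∈ r)).filter (fun r => ¬ i ∈ r),
        γ r * (r.map (Function.update c i 0)).prod
        = ∑ r ∈ (R.filter (fun r => ∀ j ∈ I, j ∈ r)).filter (fun r => ¬ i ∈ r),
        γ r * (r.map c).prod := by
      refine Finset.sum_congr rfl fun r hr => ?_
      have hir := (Finset.mem_filter.1 hr).2
      congr 2
      refine List.map_congr_left fun j hj => ?_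
      exact Function.update_of_ne (fun h : j = i => hir (by rw [← h]; exact hj)) _ _
    rw [h3] at h2
    rw [h2, add_zero] at h1
    exact h1

theorem no_identity {A : Type} [Ring A] [IsDomain A] {a0 : A} (ha0 : a0 ≠ 0)
    (hfin : ∀ a : A, a ≠ 0 → (LL a).Finite ∧ (LL a).ncard ≤ (LL a0).ncard)
    (S : TwoSidedIdeal A) (hS : Infinite S) (f : List (Fin 2) →₀ ℤ)
    (hf : ∀ z : Fin 2 → A, (∀ l, z l ∈ S) → evf z f = 0) (w : List (Fin 2)) :
    f w • (1 : A) = 0 := by
  classical
  by_contra hw
  have hw' : w ∈ f.support.filter (fun w => f w • (1 : A) ≠ 0) := by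
    refine Finset.mem_filter.2 ⟨?_, hw⟩
    rw [Finsupp.mem_support_iff]
    intro h; rw [h, zero_smul] at hw; exact hw rfl
  obtain ⟨w0, hw0, hmax⟩ := Finset.exists_max_image _ (fun w => w.length) ⟨w, hw'⟩
  obtain ⟨hw0s, hw0n⟩ := Finset.mem_filter.1 hw0
  have hbig : ∀ v : List (Fin 2), w0.length < v.length → f v • (1 : A) = 0 := by
    intro v hv
    by_contra h
    have : v ∈ f.support.filter (fun w => f w • (1 : A) ≠ 0) := by
      refine Finset.mem_filter.2 ⟨?_, h⟩
      rw [Finsupp.mem_support_iff]
      intro h'; rw [h', zero_smul] at h; exact h rfl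
    have := hmax v this
    omega
  set N := w0.length with hN
  let W0 : ℕ → Fin 2 := fun i => w0.getD i 0
  have hW0 : (List.range N).map W0 = w0 := by
    apply List.ext_getElem
    · simp [hN]
    · intro i h1 h2
      simp only [List.getElem_map, List.getElem_range, W0]
      exact List.getD_eq_getElem _ _ h2
  let R : Finset (List ℕ) := f.support.biUnion (RL N W0)
  let γ : List ℕ → A := fun r => f (r.map W0) • (1 : A)
  have hR : ∀ c : ℕ → A, (∀ i, c i ∈ S) → ∑ r ∈ R, γ r * (r.map c).prod = 0 := by
    intro c hc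
    have hz := hf (fun l => ∑ i ∈ (Finset.range N).filter (fun i => W0 i = l), c i)
      (fun l => sum_mem fun i _ => hc i)
    rw [← hz]
    unfold evf
    rw [Finsupp.sum, Finset.sum_biUnion]
    · refine Finset.sum_congr rfl fun v _ => ?_
      rw [← RL_sum, Finset.smul_sum]
      refine Finset.sum_congr rfl fun r hr => ?_
      simp only [γ]
      rw [((mem_RL N W0 v r).1 hr).1, smul_mul_assoc, one_mul]
    · intro v _ v' _ hne
      rw [Function.onFun, Finset.disjoint_left]
      intro r hr hr'
      exact hne (((mem_RL N W0 v r).1 hr).1.symm.trans ((mem_RL N W0 v' r).1 hr').1)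
  have helim := elim S R γ hR (Finset.range N)
  obtain ⟨c, hcS, hc⟩ := words_indep ha0 hfin S hS N
  let F : Finset (List ℕ) :=
    R.filter fun r => (∀ i ∈ Finset.range N, i ∈ r) ∧ r.length = N
  have hRlt : ∀ r ∈ R, ∀ i ∈ r, i < N := by
    intro r hr
    obtain ⟨v, _, hv⟩ := Finset.mem_biUnion.1 hr
    exact ((mem_RL N W0 v r).1 hv).2
  have hcov : ∀ r : List ℕ, (∀ i ∈ Finset.range N, i ∈ r) → N ≤ r.toFinset.card := by
    intro r hr
    have : Finset.range N ⊆ r.toFinset := fun i hi => List.mem_toFinset.2 (hr i hi)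
    simpa using Finset.card_le_card this
  have hFW : F ⊆ WD N := by
    intro r hr
    obtain ⟨hrR, hcovr, hlen⟩ := Finset.mem_filter.1 hr
    refine mem_WD N r ?_ (hRlt r hrR)
    have h1 := hcov r hcovr
    have h2 := List.toFinset_card_le r
    have h3 : (r : Multiset ℕ).toFinset.card = Multiset.card (r : Multiset ℕ) := by
      rw [Multiset.coe_card]
      change r.toFinset.card = r.length
      omega
    exact Multiset.coe_nodup.1 (Multiset.toFinset_card_eq_card_iff_nodup.1 h3)
  have h1 : ∑ r ∈ F, γ r * (r.map c).prod = 0 := by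
    rw [← helim c hcS]
    refine Finset.sum_subset ?_ ?_
    · intro r hr
      obtain ⟨hrR, hcovr, hlen⟩ := Finset.mem_filter.1 hr
      exact Finset.mem_filter.2 ⟨hrR, hcovr⟩
    · intro r hr hrF
      obtain ⟨hrR, hcovr⟩ := Finset.mem_filter.1 hr
      have hlen : N < r.length := by
        have h1 := hcov r hcovr
        have h2 := List.toFinset_card_le r
        have h3 : r.length ≠ N := fun h => hrF (Finset.mem_filter.2 ⟨hrR, hcovr, h⟩)
        omega
      simp only [γ]
      rw [hbig _ (by simpa using hlen), zero_mul]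
  let β : List ℕ → A := fun r => if r ∈ F then f (r.map W0) • a0 else 0
  have hβ : ∀ r, β r ∈ LL a0 := by
    intro r
    simp only [β]
    split_ifs
    · exact LL_zsmul _ (LL_self a0)
    · exact LL_zero a0
  have h2 : ∑ r ∈ WD N, β r * (r.map c).prod = 0 := by
    rw [← Finset.sum_subset hFW (fun r _ hr => by simp [β, hr])]
    have : ∑ r ∈ F, β r * (r.map c).prod = a0 * ∑ r ∈ F, γ r * (r.map c).prod := by
      rw [Finset.mul_sum]
      refine Finset.sum_congr rfl fun r hr => ?_
      simp only [β, γ, if_pos hr]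
      rw [smul_mul_assoc, smul_mul_assoc, one_mul, mul_smul_comm]
    rw [this, h1, mul_zero]
  have h0F : List.range N ∈ F := by
    refine Finset.mem_filter.2 ⟨?_, ?_, List.length_range⟩
    · refine Finset.mem_biUnion.2 ⟨w0, hw0s, (mem_RL N W0 w0 _).2 ⟨hW0, ?_⟩⟩
      intro i hi; exact List.mem_range.1 hi
    · intro i hi; exact List.mem_range.2 (Finset.mem_range.1 hi)
  have h3 := hc β hβ h2 _ (hFW h0F)
  simp only [β, if_pos h0F] at h3
  rw [hW0] at h3
  apply hw0n
  have h4 : (f w0 • (1 : A)) * a0 = 0 := by rw [smul_mul_assoc, one_mul, h3]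
  exact (mul_eq_zero.1 h4).resolve_right ha0

namespace Setup

variable {n : ℕ} {g : List (Fin 2) →₀ ℤ} {A : Type} [Ring A] (D : Setup n g A)

include D

/-- There is no such ring, if the polynomial of the identity is primitive in a suitable sense. -/
theorem false (hg : DegTwo g) (f : List (Fin 2) →₀ ℤ) (w : List (Fin 2)) (hw : f w = 1)
    (hf : ∀ z : Fin 2 → A, evf z f = eng n (z 0) (z 1) - evf z g) : False := by
  classical
  have := D.isDomain hg
  by_cases hfinA : Finite A
  · have hfield := Finite.isDomain_to_isField A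
    apply D.hne 1
    simp only [eng]
    rw [hfield.mul_comm, sub_self]
  · rw [not_finite_iff_infinite] at hfinA
    -- a bound for the number of proportional elements
    let K : ℕ := g.support.sup (fun w => w.count 0) + 1
    have hK : ∀ w, g w ≠ 0 → w.count 0 ≤ K := fun w hw =>
      (Finset.le_sup (f := fun w : List (Fin 2) => w.count 0)
        (Finsupp.mem_support_iff.2 hw)).trans (Nat.le_succ _)
    have hcase : ∀ a : A, a ≠ 0 → (LL a).Finite ∧ (LL a).ncard ≤ K := by
      intro a ha
      have h1 : ∀ B : Finset A, (∀ b ∈ B, b ∈ LL a) → B.card ≤ K := fun B hB =>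
        D.case_one hg K hK (by simp [K]) ha B hB
      have h2 : (LL a).Finite := by
        by_contra hinf
        obtain ⟨t, ht, hcard⟩ := Set.Infinite.exists_subset_card_eq hinf (K + 1)
        have := h1 t (fun b hb => ht hb)
        omega
      refine ⟨h2, ?_⟩
      rw [Set.ncard_eq_toFinset_card _ h2]
      exact h1 _ (fun b hb => (Set.Finite.mem_toFinset h2).1 hb)
    -- an element with as many proportional elements as possible
    obtain ⟨a0, ha0, hmax⟩ : ∃ a0 : A, a0 ≠ 0 ∧ ∀ a : A, a ≠ 0 → (LL a).ncard ≤ (LL a0).ncard := by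
      let P : ℕ → Prop := fun k => ∃ a : A, a ≠ 0 ∧ (LL a).ncard = k
      have hP : ∃ k, P k := ⟨_, D.x, D.hne 0, rfl⟩
      have hb : ∀ k, P k → k ≤ K := by
        rintro k ⟨a, ha, rfl⟩
        exact (hcase a ha).2
      obtain ⟨k0, hk0⟩ := hP
      have hspec := Nat.findGreatest_spec (P := P) (hb k0 hk0) hk0
      obtain ⟨a0, ha0, h0⟩ := hspec
      refine ⟨a0, ha0, fun a ha => ?_⟩
      rw [h0]
      exact Nat.le_findGreatest (hcase a ha).2 ⟨a, ha, rfl⟩
    have hS : Infinite D.S := by
      have hinj : Function.Injective (fun a : A => (⟨a * D.x, D.S.mul_mem_left _ _ D.hx⟩ : D.S)) := by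
        intro a b hab
        exact mul_right_cancel₀ (D.hne 0) (congrArg Subtype.val hab)
      exact Infinite.of_injective _ hinj
    have h1 := no_identity ha0 (fun a ha => ⟨(hcase a ha).1, hmax a ha⟩) D.S hS f (by
      intro z hz
      rw [hf, D.hid _ (hz 0) _ (hz 1), sub_eq_zero]
      congr 1
      funext l
      fin_cases l <;> rfl) w
    rw [hw, one_smul] at h1
    exact one_ne_zero h1

end Setup

end Pool.Agent.H105R2.NE
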