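import Pool.Agent.H105R2.NE.UT
import Pool.Agent.Rep463.FinQuot

/-! The dichotomy: either a finite non-Engel ring of upper triangular matrices lies in the variety,
or the variety is Engel. -/

namespace Pool.Agent.H105R2.NE

open MvPolynomial

/-- the free associative ring with unit on two letters -/
abbrev ZW : Type := MonoidAlgebra ℤ (FreeMonoid (Fin 2))

/-- evaluation -/
noncomputable def evm {A : Type} [Ring A] (z : Fin 2 → A) : ZW →ₐ[ℤ] A :=
  MonoidAlgebra.lift ℤ A (FreeMonoid (Fin 2)) (FreeMonoid.lift z)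

/-- the coefficients as a finitely supported function on lists -/
def cf (f : ZW) : List (Fin 2) →₀ ℤ := f.coeff

theorem evf_cf {A : Type} [Ring A] (z : Fin 2 → A) (f : ZW) : evf z (cf f) = evm z f := by
  unfold evm
  rw [MonoidAlgebra.lift_apply]
  unfold evf cf
  refine Finset.sum_congr rfl fun w _ => ?_
  exact congrArg (fun r => (f.coeff w) • r) (FreeMonoid.lift_apply z w).symm

/-- evaluation as a homomorphism of nonunital rings -/
noncomputable def evr {A : Type} [Ring A] (z : Fin 2 → A) : ZW →ₙ+* A :=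
  ((evm z : ZW →+* A) : ZW →ₙ+* A)

theorem evr_apply {A : Type} [Ring A] (z : Fin 2 → A) (f : ZW) : evr z f = evm z f := rfl

/-- the generators -/
noncomputable def gen (i : Fin 2) : ZW := MonoidAlgebra.single (FreeMonoid.of i) 1

@[simp] theorem evm_gen {A : Type} [Ring A] (z : Fin 2 → A) (i : Fin 2) : evm z (gen i) = z i := by
  unfold evm gen
  rw [MonoidAlgebra.lift_single, one_smul, FreeMonoid.lift_eval_of]

/-- identities in two variables of the variety of `T` -/
def IdT (T : Set RTerm) : Set ZW :=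
  {f | ∀ (R : Type) [NonUnitalRing R], InVar T R → ∀ z : Fin 2 → R,
    evm (fun i => inrH R (z i)) f = 0}

theorem IdT_add {T : Set RTerm} {f g : ZW} (hf : f ∈ IdT T) (hg : g ∈ IdT T) : f + g ∈ IdT T := by
  intro R _ hR z
  rw [map_add, hf R hR z, hg R hR z, add_zero]

theorem IdT_sub {T : Set RTerm} {f g : ZW} (hf : f ∈ IdT T) (hg : g ∈ IdT T) : f - g ∈ IdT T := by
  intro R _ hR z
  rw [map_sub, hf R hR z, hg R hR z, sub_zero]

theorem IdT_zero {T : Set RTerm} : (0 : ZW) ∈ IdT T := by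
  intro R _ hR z
  rw [map_zero]

theorem IdT_zsmul {T : Set RTerm} {f : ZW} (k : ℤ) (hf : f ∈ IdT T) : k • f ∈ IdT T := by
  intro R _ hR z
  rw [map_zsmul, hf R hR z, smul_zero]

theorem IdT_mul_left {T : Set RTerm} {f : ZW} (g : ZW) (hf : f ∈ IdT T) : g * f ∈ IdT T := by
  intro R _ hR z
  rw [map_mul, hf R hR z, mul_zero]

theorem IdT_mul_right {T : Set RTerm} {f : ZW} (g : ZW) (hf : f ∈ IdT T) : f * g ∈ IdT T := by
  intro R _ hR z
  rw [map_mul, hf R hR z, zero_mul]

/-- the nonunital subring of the free ring generated by the letters -/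
noncomputable def freeN : NonUnitalSubring ZW := NonUnitalSubring.closure (Set.range gen)

theorem evm_mem_range {R : Type} [NonUnitalRing R] (z : Fin 2 → R) (f : ZW) (hf : f ∈ freeN) :
    ∃ r : R, evm (fun i => inrH R (z i)) f = inrH R r := by
  unfold freeN at hf
  induction hf using NonUnitalSubring.closure_induction with
  | mem f hf =>
    obtain ⟨i, rfl⟩ := hf
    exact ⟨z i, evm_gen _ i⟩
  | zero => exact ⟨0, by simp⟩
  | add f g _ _ h1 h2 =>
    obtain ⟨r, hr⟩ := h1
    obtain ⟨s, hs⟩ := h2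
    exact ⟨r + s, by rw [map_add, hr, hs, map_add]⟩
  | neg f _ h1 =>
    obtain ⟨r, hr⟩ := h1
    exact ⟨-r, by rw [map_neg, hr, map_neg]⟩
  | mul f g _ _ h1 h2 =>
    obtain ⟨r, hr⟩ := h1
    obtain ⟨s, hs⟩ := h2
    exact ⟨r * s, by rw [map_mul, hr, hs, map_mul]⟩

theorem mem_closure_exists {A : Type} [Ring A] (z : Fin 2 → A) (a : A)
    (ha : a ∈ NonUnitalSubring.closure (Set.range z)) : ∃ f ∈ freeN, evm z f = a := by
  induction ha using NonUnitalSubring.closure_induction with
  | mem f hf =>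
    obtain ⟨i, rfl⟩ := hf
    exact ⟨gen i, NonUnitalSubring.subset_closure ⟨i, rfl⟩, evm_gen _ i⟩
  | zero => exact ⟨0, zero_mem _, map_zero _⟩
  | add f g _ _ h1 h2 =>
    obtain ⟨r, hrm, hr⟩ := h1
    obtain ⟨s, hsm, hs⟩ := h2
    exact ⟨r + s, add_mem hrm hsm, by rw [map_add, hr, hs]⟩
  | neg f _ h1 =>
    obtain ⟨r, hrm, hr⟩ := h1
    exact ⟨-r, neg_mem hrm, by rw [map_neg, hr]⟩
  | mul f g _ _ h1 h2 =>
    obtain ⟨r, hrm, hr⟩ := h1
    obtain ⟨s, hsm, hs⟩ := h2
    exact ⟨r * s, mul_mem hrm hsm, by rw [map_mul, hr, hs]⟩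

theorem eval_idT {T : Set RTerm} {t : RTerm} (ht : t ∈ T) (F : ℕ → ZW) (hF : ∀ i, F i ∈ freeN) :
    t.eval F ∈ IdT T := by
  intro R _ hR z
  choose r hr using fun i => evm_mem_range z (F i) (hF i)
  have h1 := eval_map (R := ZW) (S := Unitization ℤ R)
    (evr (fun i => inrH R (z i))) F t
  have h2 := eval_map (S := Unitization ℤ R) (inrH R) r t
  have h3 : (fun i => evm (fun i => inrH R (z i)) (F i)) = fun i => inrH R (r i) := funext hr
  refine h1.trans ?_
  change t.eval (fun i => evm (fun i => inrH R (z i)) (F i)) = 0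
  rw [h3, ← h2, hR t ht r, map_zero]

theorem inVar_closure {T : Set RTerm} {A : Type} [Ring A] (z : Fin 2 → A)
    (hz : ∀ f ∈ IdT T, evm z f = 0) : InVar T (NonUnitalSubring.closure (Set.range z)) := by
  intro t ht v
  choose F hFm hF using fun i => mem_closure_exists z (v i) (v i).2
  have h1 := eval_map (NonUnitalSubringClass.subtype (NonUnitalSubring.closure (Set.range z))) v t
  have h2 := eval_map (R := ZW) (S := A) (evr z) F t
  have h3 : (fun i => evm z (F i)) = fun i => (v i : A) := funext hF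
  apply Subtype.ext
  refine h1.trans ?_
  change t.eval (fun i => (v i : A)) = 0
  rw [← h3]
  exact h2.symm.trans (hz _ (eval_idT ht F hFm))

/-- the ideal of `ℤ[s, t]` describing the identities linear in `x` modulo `(x)²` -/
noncomputable def idealT (T : Set RTerm) : Ideal PP where
  carrier := {F | ∃ f ∈ IdT T, evm (zU (X 0 : PP) (X 1)) f = Eu F}
  zero_mem' := ⟨0, IdT_zero, by rw [map_zero]; apply ut_ext <;> simp [ut_zero]⟩
  add_mem' := by
    rintro F G ⟨f, hf, hF⟩ ⟨g, hg, hG⟩
    exact ⟨f + g, IdT_add hf hg, by rw [map_add, hF, hG]; apply ut_ext <;> simp [ut_add]⟩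
  smul_mem' := by
    intro c F
    change (∃ f ∈ IdT T, evm (zU (X 0 : PP) (X 1)) f = Eu F) →
      ∃ f ∈ IdT T, evm (zU (X 0 : PP) (X 1)) f = Eu (c * F)
    intro hF
    induction c using MvPolynomial.induction_on generalizing F with
    | C a =>
      obtain ⟨f, hf, hF⟩ := hF
      refine ⟨a • f, IdT_zsmul a hf, ?_⟩
      rw [map_zsmul, hF, MvPolynomial.C_mul']
      apply ut_ext
      · simp [ut_zsmul, -zsmul_eq_mul]
      · rfl
      · simp [ut_zsmul, -zsmul_eq_mul]
    | add p q hp hq =>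
      obtain ⟨f, hf, hF'⟩ := hp hF
      obtain ⟨g, hg, hG'⟩ := hq hF
      exact ⟨f + g, IdT_add hf hg, by rw [map_add, hF', hG']; apply ut_ext <;> simp [ut_add, add_mul]⟩
    | mul_X p i hp =>
      rw [mul_assoc]
      apply hp
      obtain ⟨f, hf, hF'⟩ := hF
      fin_cases i
      · refine ⟨gen 1 * f, IdT_mul_left _ hf, ?_⟩
        rw [map_mul, hF', evm_gen]
        change Du (X 0) (X 1) * Eu F = _
        rw [Du_Eu]; rfl
      · refine ⟨f * gen 1, IdT_mul_right _ hf, ?_⟩
        rw [map_mul, hF', evm_gen]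
        change Eu F * Du (X 0) (X 1) = _
        rw [Eu_Du, mul_comm]; rfl

theorem mem_idealT {T : Set RTerm} {F : PP} :
    F ∈ idealT T ↔ ∃ f ∈ IdT T, evm (zU (X 0 : PP) (X 1)) f = Eu F := Iff.rfl

theorem entries_mem {T : Set RTerm} {f : ZW} (hf : f ∈ IdT T) :
    (evm (zU (X 0 : PP) (X 1)) f).1 0 0 ∈ idealT T ∧
    (evm (zU (X 0 : PP) (X 1)) f).1 1 1 ∈ idealT T ∧
    (X 0 - X 1) * (evm (zU (X 0 : PP) (X 1)) f).1 0 1 ∈ idealT T := by
  refine ⟨⟨f * gen 0, IdT_mul_right _ hf, ?_⟩, ⟨gen 0 * f, IdT_mul_left _ hf, ?_⟩,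
    ⟨gen 1 * f - f * gen 1, IdT_sub (IdT_mul_left _ hf) (IdT_mul_right _ hf), ?_⟩⟩
  · rw [map_mul, evm_gen]
    change _ * Eu 1 = _
    apply ut_ext <;> simp [ut_mul00, ut_mul01, ut_mul11]
  · rw [map_mul, evm_gen]
    change Eu 1 * _ = _
    apply ut_ext <;> simp [ut_mul00, ut_mul01, ut_mul11]
  · rw [map_sub, map_mul, map_mul, evm_gen]
    change Du (X 0) (X 1) * _ - _ * Du (X 0) (X 1) = _
    apply ut_ext
    · simp [ut_sub, ut_mul00]; ring
    · simp [ut_sub, ut_mul01]; ring
    · simp [ut_sub, ut_mul11]; ring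

/-- entrywise map -/
noncomputable def utMap {B C : Type} [CommRing B] [CommRing C] (φ : B →+* C) : UT B →+* UT C where
  toFun := fun M => ⟨M.1.map φ, by change (M.1.map φ) 1 0 = 0; simp [ut10 M]⟩
  map_one' := by
    apply Subtype.ext
    change (1 : Matrix (Fin 2) (Fin 2) B).map φ = 1
    simp
  map_zero' := by
    apply Subtype.ext
    change (0 : Matrix (Fin 2) (Fin 2) B).map φ = 0
    simp
  map_add' := by
    intro M N
    apply Subtype.ext
    change (M.1 + N.1).map φ = M.1.map φ + N.1.map φ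
    ext i j; simp
  map_mul' := by
    intro M N
    apply Subtype.ext
    change (M.1 * N.1).map φ = M.1.map φ * N.1.map φ
    rw [Matrix.map_mul]

theorem utMap_apply {B C : Type} [CommRing B] [CommRing C] (φ : B →+* C) (M : UT B)
    (i j : Fin 2) : (utMap φ M).1 i j = φ (M.1 i j) := rfl

theorem utMap_zU {B C : Type} [CommRing B] [CommRing C] (φ : B →+* C) (s t : B) :
    (fun i => utMap φ (zU s t i)) = zU (φ s) (φ t) := by
  funext i
  fin_cases i
  · change utMap φ (Eu 1) = Eu 1
    apply ut_ext <;> simp [utMap_apply]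
  · change utMap φ (Du s t) = Du _ _
    apply ut_ext <;> simp [utMap_apply]

theorem eng_EuDu {B : Type} [CommRing B] (s t c : B) (n : ℕ) :
    eng n (Eu c : UT B) (Du s t) = Eu ((t - s) ^ n * c) := by
  induction n with
  | zero => simp [eng]
  | succ n ih =>
    simp only [eng]
    rw [ih, Eu_Du, Du_Eu]
    apply ut_ext
    · simp [ut_sub]
    · simp only [ut_sub, Eu01]; ring
    · simp [ut_sub]

/-- First alternative: a finite non-Engel ring in the variety. -/
theorem alternative_one {T : Set RTerm} (h : (X 0 - X 1 : PP) ∉ (idealT T).radical) :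
    ∃ (K : Type) (_ : Field K) (_ : Finite K) (α β : K), α ≠ β ∧
      InVar T (NonUnitalSubring.closure (Set.range (zU α β))) := by
  have hJ : IsJacobsonRing PP := by
    have := Pool.Agent.Rep463.Rep463FR.int_jacobson
    infer_instance
  rw [Ideal.radical_eq_jacobson, Ideal.jacobson, Ideal.mem_sInf] at h
  push Not at h
  obtain ⟨m, ⟨hm1, hm2⟩, hm3⟩ := h
  letI : Field (PP ⧸ m) := Ideal.Quotient.field m
  have h1 : Algebra.FiniteType ℤ PP := inferInstance
  have hft : @Algebra.FiniteType ℤ (PP ⧸ m) _ _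
      (@Ring.toIntAlgebra (PP ⧸ m) (DivisionRing.toRing)) :=
    @Algebra.FiniteType.of_surjective ℤ PP (PP ⧸ m) _ _ _ _
      (@Ring.toIntAlgebra (PP ⧸ m) (DivisionRing.toRing)) h1 (Ideal.Quotient.mk m).toIntAlgHom
      Ideal.Quotient.mk_surjective
  have hfin : Finite (PP ⧸ m) := Pool.Agent.Rep463.Rep463FR.finite_field
  refine ⟨PP ⧸ m, inferInstance, hfin, Ideal.Quotient.mk m (X 0), Ideal.Quotient.mk m (X 1), ?_, ?_⟩
  · intro h
    apply hm3
    rw [← Ideal.Quotient.eq_zero_iff_mem, map_sub, h, sub_self]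
  · apply inVar_closure
    intro f hf
    obtain ⟨e0, e1, e2⟩ := entries_mem hf
    have hmap : evm (zU (Ideal.Quotient.mk m (X 0)) (Ideal.Quotient.mk m (X 1))) f
        = utMap (Ideal.Quotient.mk m) (evm (zU (X 0 : PP) (X 1)) f) := by
      rw [← evf_cf, ← evf_cf, evf_map, utMap_zU]
    rw [hmap]
    apply ut_ext
    · rw [utMap_apply, ut_zero, Ideal.Quotient.eq_zero_iff_mem]
      exact hm1 e0
    · rw [utMap_apply, ut_zero, Ideal.Quotient.eq_zero_iff_mem]
      exact (hm2.isPrime.mem_or_mem (hm1 e2)).resolve_left hm3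
    · rw [utMap_apply, ut_zero, Ideal.Quotient.eq_zero_iff_mem]
      exact hm1 e1

theorem cf_eng (n : ℕ) : (eng n (gen 0) (gen 1)).coeff
    (FreeMonoid.of 0 * FreeMonoid.of 1 ^ n) = 1 := by
  induction n with
  | zero => simp [eng, gen]
  | succ n ih =>
    simp only [eng]
    rw [MonoidAlgebra.coeff_sub, Finsupp.sub_apply, pow_succ, ← mul_assoc]
    have h1 : (eng n (gen 0) (gen 1) * gen 1).coeff
        (FreeMonoid.of 0 * FreeMonoid.of 1 ^ n * FreeMonoid.of 1) = 1 := by
      unfold gen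
      rw [MonoidAlgebra.coeff_mul_single_mul, mul_one]
      exact ih
    have h2 : (gen 1 * eng n (gen 0) (gen 1)).coeff
        (FreeMonoid.of 0 * FreeMonoid.of 1 ^ n * FreeMonoid.of 1) = 0 := by
      conv_lhs => unfold gen
      apply MonoidAlgebra.coeff_single_mul_of_forall_mul_ne
      intro d h
      have := congrArg FreeMonoid.toList h
      simp at this
    rw [h1, h2, sub_zero]

/-- Second alternative: the variety is Engel. -/
theorem alternative_two {T : Set RTerm} (h : (X 0 - X 1 : PP) ∈ (idealT T).radical) :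
    Engel T := by
  by_contra hne
  obtain ⟨n, hn⟩ := h
  obtain ⟨f, hf, hfe⟩ := hn
  -- the identity
  set f' : ZW := ((-1 : ℤ) ^ n) • f with hf'
  have hf'T : f' ∈ IdT T := IdT_zsmul _ hf
  have hf'e : evm (zU (X 0 : PP) (X 1)) f' = Eu ((X 1 - X 0) ^ n) := by
    rw [hf', map_zsmul, hfe]
    apply ut_ext
    · simp [ut_zsmul, -zsmul_eq_mul]
    · simp only [ut_zsmul, Eu01]
      rw [zsmul_eq_mul]
      push_cast
      rw [← mul_pow]
      congr 1
      ring
    · simp [ut_zsmul, -zsmul_eq_mul]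
  set g : ZW := eng n (gen 0) (gen 1) - f' with hg
  have hge : evm (zU (X 0 : PP) (X 1)) g = 0 := by
    rw [hg, map_sub, hf'e]
    have h1 := eng_map (R := ZW) (S := UT PP)
      (evr (zU (X 0 : PP) (X 1))) n (gen 0) (gen 1)
    have h2 : evm (zU (X 0 : PP) (X 1)) (eng n (gen 0) (gen 1)) = Eu ((X 1 - X 0) ^ n) := by
      refine h1.trans ?_
      change eng n (evm (zU (X 0 : PP) (X 1)) (gen 0)) (evm (zU (X 0 : PP) (X 1)) (gen 1)) = _
      rw [evm_gen, evm_gen]
      change eng n (Eu 1) (Du (X 0) (X 1)) = _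
      rw [eng_EuDu, mul_one]
    rw [h2, sub_self]
  have hdeg : DegTwo (cf g) := degTwo_of_ev _ (by rw [evf_cf, hge])
  -- a ring
  unfold Engel at hne
  push Not at hne
  choose R' hR'i hR'T x' y' hxy' using fun m : ℕ => hne (m + 1) (by omega)
  have hT : InVar T (∀ m, R' m) := InVar.pi hR'T
  have heng : ∀ (k m : ℕ), (eng k x' y' : ∀ m, R' m) m = eng k (x' m) (y' m) := by
    intro k m
    induction k with
    | zero => rfl
    | succ k ih => simp only [eng, Pi.sub_apply, Pi.mul_apply, ih]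
  have hxy : ∀ m, (eng m x' y' : ∀ m, R' m) ≠ 0 := by
    intro m h0
    have h1 := congrFun h0 m
    rw [heng, Pi.zero_apply] at h1
    apply hxy' m
    simp only [eng]
    rw [h1]; simp
  have hid : ∀ {A : Type} [Ring A] (z : Fin 2 → A),
      evf z (cf f') = eng n (z 0) (z 1) - evf z (cf g) := by
    intro A _ z
    rw [evf_cf, evf_cf, hg, map_sub]
    have h1 := eng_map (R := ZW) (S := A)
      (evr z) n (gen 0) (gen 1)
    have h2 : evm z (eng n (gen 0) (gen 1)) = eng n (z 0) (z 1) := by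
      refine h1.trans ?_
      change eng n (evm z (gen 0)) (evm z (gen 1)) = _
      rw [evm_gen, evm_gen]
    rw [h2]
    abel
  obtain ⟨A, instA, ⟨D⟩⟩ := exists_setup n (cf g) (∀ m, R' m) (by
    intro a b
    have h1 := hf'T _ hT ![a, b]
    have h2 := hid (A := Unitization ℤ (∀ m, R' m)) (fun i => inrH _ (![a, b] i))
    rw [evf_cf, h1] at h2
    have h3 := sub_eq_zero.1 h2.symm
    refine h3.trans ?_
    congr 1
    funext i
    fin_cases i <;> rfl) x' y' hxy
  refine D.false hdeg (cf f') ((0 : Fin 2) :: List.replicate n 1) ?_ (fun z => hid z)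
  have h1 : cf f' ((0 : Fin 2) :: List.replicate n 1)
      = (eng n (gen 0) (gen 1)).coeff (FreeMonoid.of 0 * FreeMonoid.of 1 ^ n)
        - g.coeff (FreeMonoid.of 0 * FreeMonoid.of 1 ^ n) := by
    have hfg : f' = eng n (gen 0) (gen 1) - g := by rw [hg]; abel
    have hw : ((0 : Fin 2) :: List.replicate n 1 : List (Fin 2))
        = (FreeMonoid.of 0 * FreeMonoid.of 1 ^ n : FreeMonoid (Fin 2)) := by
      have : ∀ k : ℕ, (List.replicate k (1 : Fin 2) : List (Fin 2))
          = (FreeMonoid.of 1 ^ k : FreeMonoid (Fin 2)) := by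
        intro k
        induction k with
        | zero => rfl
        | succ k ih => rw [pow_succ', ← ih]; rfl
      rw [this]; rfl
    unfold cf
    rw [hfg, MonoidAlgebra.coeff_sub, hw]
    rfl
  rw [h1, cf_eng]
  have h2 : g.coeff (FreeMonoid.of 0 * FreeMonoid.of 1 ^ n) = 0 := by
    by_contra h3
    have h4 := hdeg _ h3
    have h5 : List.count (0 : Fin 2) (FreeMonoid.of 0 * FreeMonoid.of 1 ^ n : FreeMonoid (Fin 2))
        = 1 := by
      have : ∀ k : ℕ, (List.replicate k (1 : Fin 2) : List (Fin 2))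
          = (FreeMonoid.of 1 ^ k : FreeMonoid (Fin 2)) := by
        intro k
        induction k with
        | zero => rfl
        | succ k ih => rw [pow_succ', ← ih]; rfl
      rw [← this]
      change List.count (0 : Fin 2) ((0 : Fin 2) :: List.replicate n 1) = 1
      rw [List.count_cons_self]
      simp [List.count_replicate]
    omega
  rw [h2, sub_zero]

end Pool.Agent.H105R2.NE
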