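import Pool.Agent.H105R2.NE.W

/-! A bound for the order of the finite subdirectly irreducible members. -/

namespace Pool.Agent.H105R2.NE

/-- left multiplication on an ideal -/
def Lm {R : Type} [NonUnitalRing R] (M : TwoSidedIdeal R) (x : R) : AddMonoid.End M where
  toFun := fun m => ⟨x * m, M.mul_mem_left _ _ m.2⟩
  map_zero' := Subtype.ext (mul_zero x)
  map_add' := fun a b => Subtype.ext (mul_add x a b)

/-- right multiplication on an ideal -/
def Rm {R : Type} [NonUnitalRing R] (M : TwoSidedIdeal R) (x : R) : AddMonoid.End M where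
  toFun := fun m => ⟨m * x, M.mul_mem_right _ _ m.2⟩
  map_zero' := Subtype.ext (zero_mul x)
  map_add' := fun a b => Subtype.ext (add_mul (a : R) (b : R) x)

theorem Lm_pow {R : Type} [NonUnitalRing R] (M : TwoSidedIdeal R) (x : R) (n : ℕ) (m : M) :
    (((Lm M x) ^ (n + 1)) m : R) = pwr x n * m := by
  induction n generalizing m with
  | zero => rw [zero_add, pow_one]; rfl
  | succ n ih =>
    rw [pow_succ]
    change (((Lm M x) ^ (n + 1)) (Lm M x m) : R) = _
    rw [ih, pwr, mul_assoc]
    rfl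

theorem Rm_pow {R : Type} [NonUnitalRing R] (M : TwoSidedIdeal R) (x : R) (n : ℕ) (m : M) :
    (((Rm M x) ^ (n + 1)) m : R) = m * pwr x n := by
  induction n generalizing m with
  | zero => rw [zero_add, pow_one]; rfl
  | succ n ih =>
    rw [pow_succ', pwr, ← mul_assoc, ← ih]
    rfl

theorem field_bound {C : Type} [CommRing C] [Nontrivial C] {Q : ℕ} (hQ1 : 1 ≤ Q)
    (h1 : ∀ T : C, T ≠ 0 → T ^ Q = 1) : Nat.card C ≤ Q + 1 := by
  have hdom : IsDomain C := by
    have : NoZeroDivisors C := ⟨by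
      intro a b hab
      by_cases ha : a = 0
      · exact Or.inl ha
      · right
        obtain ⟨q, rfl⟩ : ∃ q, Q = q + 1 := ⟨Q - 1, by omega⟩
        have := h1 a ha
        calc b = a ^ (q + 1) * b := by rw [this, one_mul]
          _ = a ^ q * (a * b) := by ring
          _ = 0 := by rw [hab, mul_zero]⟩
    exact NoZeroDivisors.to_isDomain C
  have hne : (Polynomial.X ^ (Q + 1) - Polynomial.X : Polynomial C) ≠ 0 :=
    (Polynomial.monic_X_pow_sub (by
        rw [Polynomial.degree_X]
        exact_mod_cast (by omega : 1 < Q + 1))).ne_zero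
  have hdeg : (Polynomial.X ^ (Q + 1) - Polynomial.X : Polynomial C).natDegree = Q + 1 :=
    by
      rw [Polynomial.natDegree_sub_eq_left_of_natDegree_lt, Polynomial.natDegree_X_pow]
      rw [Polynomial.natDegree_X_pow, Polynomial.natDegree_X]
      omega
  classical
  have hroot : ∀ T : C, T ∈ (Polynomial.X ^ (Q + 1) - Polynomial.X : Polynomial C).roots := by
    intro T
    rw [Polynomial.mem_roots hne, Polynomial.IsRoot, Polynomial.eval_sub, Polynomial.eval_pow,
      Polynomial.eval_X, sub_eq_zero]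
    by_cases hT : T = 0
    · rw [hT, zero_pow (by omega)]
    · rw [pow_succ, h1 T hT, one_mul]
  have hfin : Finite C := by
    refine Finite.of_injective
      (fun T : C => (⟨T, Multiset.mem_toFinset.2 (hroot T)⟩ :
        {T // T ∈ (Polynomial.X ^ (Q + 1) - Polynomial.X : Polynomial C).roots.toFinset})) ?_
    intro a b hab
    exact congrArg Subtype.val hab
  have := Fintype.ofFinite C
  rw [Nat.card_eq_fintype_card]
  calc Fintype.card C ≤ (Polynomial.X ^ (Q + 1) - Polynomial.X : Polynomial C).roots.toFinset.card :=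
        Finset.card_le_card (fun T _ => Multiset.mem_toFinset.2 (hroot T))
    _ ≤ Multiset.card (Polynomial.X ^ (Q + 1) - Polynomial.X : Polynomial C).roots :=
        Multiset.toFinset_card_le _
    _ ≤ _ := (Polynomial.card_roots' _).trans hdeg.le

theorem si_module {p k Q : ℕ} (hp : p.Prime) (hQ : Q + 1 = p ^ k) (hQ1 : 1 ≤ Q) {R : Type}
    [NonUnitalRing R] (M : TwoSidedIdeal R) (r : R) (hrM : r ∈ M) (hr0 : r ≠ 0)
    (m1 : ∀ x y, ∀ m ∈ M, x * y * m = y * x * m ∧ m * (x * y) = m * (y * x))
    (m2 : ∀ x, ∀ m ∈ M, pwr x Q * m = x * m ∧ m * pwr x Q = m * x)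
    (m3 : ∀ m ∈ M, p • m = 0)
    (m4 : ∀ I : TwoSidedIdeal R, (∀ z ∈ I, z ∈ M) → (∃ z ∈ I, z ≠ 0) → r ∈ I) :
    Nat.card M ≤ Q + 1 ∧ (∀ x, x * r = 0 → ∀ m ∈ M, x * m = 0) ∧
      (∀ x, r * x = 0 → ∀ m ∈ M, m * x = 0) := by
  let G : Set (AddMonoid.End M) := Set.range (Lm M) ∪ Set.range (Rm M)
  have hG : ∀ a ∈ G, ∀ b ∈ G, a * b = b * a := by
    rintro _ (⟨x, rfl⟩ | ⟨x, rfl⟩) _ (⟨y, rfl⟩ | ⟨y, rfl⟩)
    · ext m
      change x * (y * (m : R)) = y * (x * m)
      rw [← mul_assoc, ← mul_assoc, (m1 x y m m.2).1]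
    · ext m
      change x * ((m : R) * y) = x * m * y
      rw [mul_assoc]
    · ext m
      change y * (m : R) * x = y * (m * x)
      rw [mul_assoc]
    · ext m
      change (m : R) * y * x = m * x * y
      rw [mul_assoc, mul_assoc, (m1 y x m m.2).2]
  let C := Subring.closure G
  let instC : CommRing C := Subring.closureCommRingOfComm hG
  have hLC : ∀ x, Lm M x ∈ C := fun x => Subring.subset_closure (Or.inl ⟨x, rfl⟩)
  have hRC : ∀ x, Rm M x ∈ C := fun x => Subring.subset_closure (Or.inr ⟨x, rfl⟩)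
  have hpC : (p : C) = 0 := by
    apply Subtype.ext
    ext m
    change (((p : AddMonoid.End M)) m : R) = 0
    rw [AddMonoid.End.natCast_apply]
    exact m3 m m.2
  let Fr : C →+* C :=
    { toFun := fun T => T ^ (Q + 1)
      map_one' := one_pow _
      map_mul' := fun a b => mul_pow a b _
      map_zero' := zero_pow (Nat.succ_ne_zero Q)
      map_add' := fun a b => by
        obtain ⟨c, hc⟩ := exists_add_pow_prime_pow_eq hp a b k
        rw [hQ, hc, hpC, zero_mul, zero_mul, zero_mul, add_zero] }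
  have hfix : ∀ T : C, T ^ (Q + 1) = T := by
    rintro ⟨T, hT⟩
    have : (⟨T, hT⟩ : C) ∈ Fr.eqLocus (RingHom.id C) := by
      induction hT using Subring.closure_induction with
      | mem T hT =>
        change (⟨T, _⟩ : C) ^ (Q + 1) = ⟨T, _⟩
        apply Subtype.ext
        change T ^ (Q + 1) = T
        rcases hT with ⟨x, rfl⟩ | ⟨x, rfl⟩
        · ext m
          rw [Lm_pow, (m2 x m m.2).1]; rfl
        · ext m
          rw [Rm_pow, (m2 x m m.2).2]; rfl
      | zero => exact zero_mem _
      | one => exact one_mem _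
      | add a b ha hb h1 h2 => exact add_mem h1 h2
      | neg a ha h1 => exact neg_mem h1
      | mul a b ha hb h1 h2 => exact mul_mem h1 h2
    exact this
  have hcomm' : ∀ (T : C) (x : R) (m : M), T.1 (Lm M x m) = Lm M x (T.1 m) := by
    intro T x m
    have h := congrArg Subtype.val (mul_comm T ⟨Lm M x, hLC x⟩)
    exact DFunLike.congr_fun h m
  have hcomm'' : ∀ (T : C) (x : R) (m : M), T.1 (Rm M x m) = Rm M x (T.1 m) := by
    intro T x m
    have h := congrArg Subtype.val (mul_comm T ⟨Rm M x, hRC x⟩)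
    exact DFunLike.congr_fun h m
  -- the image of an element of `C` contains `r`
  have himage : ∀ T : C, T ≠ 0 → ∃ m : M, (T.1 m : R) = r := by
    intro T hT
    let I : TwoSidedIdeal R := TwoSidedIdeal.mk' {z | ∃ m : M, (T.1 m : R) = z}
      ⟨0, by rw [map_zero]; rfl⟩
      (by rintro _ _ ⟨a, rfl⟩ ⟨b, rfl⟩; exact ⟨a + b, by rw [map_add]; rfl⟩)
      (by rintro _ ⟨a, rfl⟩; exact ⟨-a, by rw [map_neg]; rfl⟩)
      (by rintro x _ ⟨a, rfl⟩; exact ⟨Lm M x a, by rw [hcomm']; rfl⟩)
      (by rintro _ x ⟨a, rfl⟩; exact ⟨Rm M x a, by rw [hcomm'']; rfl⟩)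
    have hI : ∀ z, z ∈ I ↔ ∃ m : M, (T.1 m : R) = z := fun z => TwoSidedIdeal.mem_mk' ..
    refine (hI r).1 (m4 I ?_ ?_)
    · intro z hz
      obtain ⟨m, rfl⟩ := (hI z).1 hz
      exact (T.1 m).2
    · by_contra hcon
      push Not at hcon
      apply hT
      apply Subtype.ext
      ext m
      exact hcon _ ((hI _).2 ⟨m, rfl⟩)
  let r' : M := ⟨r, hrM⟩
  obtain ⟨q, rfl⟩ : ∃ q, Q = q + 1 := ⟨Q - 1, by omega⟩
  have hmulap : ∀ (S T : C) (m : M), (S * T).1 m = S.1 (T.1 m) := fun _ _ _ => rfl
  have hidem : ∀ T : C, T ^ (q + 1) * T ^ (q + 1) = T ^ (q + 1) := by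
    intro T
    calc T ^ (q + 1) * T ^ (q + 1) = T ^ (q + 1 + 1) * T ^ q := by ring
      _ = T * T ^ q := by rw [hfix]
      _ = _ := by ring
  have hA : ∀ T : C, T.1 r' = 0 → T = 0 := by
    intro T hTr
    by_contra hT
    have he : T ^ (q + 1) ≠ 0 := by
      intro h0
      apply hT
      rw [← hfix T, pow_succ, h0, zero_mul]
    obtain ⟨m, hm⟩ := himage _ he
    have hm' : (T ^ (q + 1)).1 m = r' := Subtype.ext hm
    have h1 : (T ^ (q + 1)).1 r' = r' := by
      rw [← hm', ← hmulap, hidem]
    have h2 : (T ^ (q + 1)).1 r' = 0 := by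
      rw [pow_succ, hmulap, hTr, map_zero]
    rw [h1] at h2
    exact hr0 (congrArg Subtype.val h2)
  have hB : ∀ T : C, T ≠ 0 → T ^ (q + 1) = 1 := by
    intro T hT
    by_contra hne
    have hf : (1 - T ^ (q + 1)) ≠ 0 := fun h => hne (sub_eq_zero.1 h).symm
    obtain ⟨m, hm⟩ := himage _ hf
    have hm' : (1 - T ^ (q + 1)).1 m = r' := Subtype.ext hm
    apply hT
    apply hA
    rw [← hm', ← hmulap]
    have : T * (1 - T ^ (q + 1)) = 0 := by
      rw [mul_sub, mul_one, ← pow_succ', hfix, sub_self]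
    rw [this]
    rfl
  have hnt : Nontrivial C := by
    refine ⟨⟨1, 0, ?_⟩⟩
    intro h
    have h1 : (1 : C).1 r' = 0 := by rw [h]; rfl
    exact hr0 (congrArg Subtype.val h1)
  have hcard := field_bound (C := C) (Q := q + 1) (by omega) hB
  have hbij : Function.Bijective (fun T : C => T.1 r') := by
    constructor
    · intro S T hST
      rw [← sub_eq_zero]
      apply hA
      have hST' : S.1 r' = T.1 r' := hST
      change S.1 r' - T.1 r' = 0
      rw [hST', sub_self]
    · intro m
      by_cases hm : m = 0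
      · exact ⟨0, by rw [hm]; rfl⟩
      let I : TwoSidedIdeal R := TwoSidedIdeal.mk' {z | ∃ T : C, (T.1 m : R) = z}
        ⟨0, rfl⟩
        (by rintro _ _ ⟨a, rfl⟩ ⟨b, rfl⟩; exact ⟨a + b, rfl⟩)
        (by rintro _ ⟨a, rfl⟩; exact ⟨-a, rfl⟩)
        (by rintro x _ ⟨a, rfl⟩; exact ⟨⟨Lm M x, hLC x⟩ * a, rfl⟩)
        (by rintro _ x ⟨a, rfl⟩; exact ⟨⟨Rm M x, hRC x⟩ * a, rfl⟩)
      have hI : ∀ z, z ∈ I ↔ ∃ T : C, (T.1 m : R) = z := fun z => TwoSidedIdeal.mem_mk' ..
      have hrI : r ∈ I := by
        refine m4 I ?_ ⟨m, (hI _).2 ⟨1, rfl⟩, fun h => hm (Subtype.ext h)⟩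
        intro z hz
        obtain ⟨T, rfl⟩ := (hI z).1 hz
        exact (T.1 m).2
      obtain ⟨T, hT⟩ := (hI r).1 hrI
      have hT' : T.1 m = r' := Subtype.ext hT
      have hT0 : T ≠ 0 := by
        rintro rfl
        apply hr0
        rw [← hT]; rfl
      refine ⟨T ^ q, ?_⟩
      change (T ^ q).1 r' = m
      rw [← hT', ← hmulap, ← pow_succ, hB T hT0]
      rfl
  refine ⟨?_, ?_, ?_⟩
  · rw [← Nat.card_eq_of_bijective _ hbij]
    exact hcard
  · intro x hx m hm
    have h0 := hA ⟨Lm M x, hLC x⟩ (Subtype.ext hx)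
    have h1 := congrArg Subtype.val h0
    have h2 := DFunLike.congr_fun h1 (⟨m, hm⟩ : M)
    exact congrArg Subtype.val h2
  · intro x hx m hm
    have h0 := hA ⟨Rm M x, hRC x⟩ (Subtype.ext hx)
    have h1 := congrArg Subtype.val h0
    have h2 := DFunLike.congr_fun h1 (⟨m, hm⟩ : M)
    exact congrArg Subtype.val h2

theorem pwr_mem {R : Type} [NonUnitalRing R] (I : TwoSidedIdeal R) {x : R} (hx : x ∈ I) (n : ℕ) :
    pwr x n ∈ I := by
  cases n with
  | zero => exact hx
  | succ n => exact I.mul_mem_left _ _ hx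

theorem si_bound {p k Q : ℕ} (hp : p.Prime) (hQ : Q + 1 = p ^ k) (hQ1 : 1 ≤ Q) {R : Type}
    [NonUnitalRing R] [Finite R] (h : PW p Q R) (r : R) (hr : SI R r) :
    Nat.card R ≤ (Q + 1) ^ 3 := by
  obtain ⟨J, hJ1, hJ2, hJ3⟩ := exists_J h
  obtain ⟨hr0, hrI⟩ := hr
  by_cases hJ : ∃ z ∈ J, z ≠ 0
  · have hrJ := hrI J hJ
    obtain ⟨hcard, hL, hR⟩ := si_module hp hQ hQ1 J r hrJ hr0
      (by
        intro x y m hm
        constructor
        · rw [← sub_eq_zero, ← sub_mul]
          exact hJ3 _ (hJ1 x y) _ hm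
        · rw [← sub_eq_zero, ← mul_sub]
          exact hJ3 _ hm _ (hJ1 x y))
      (by
        intro x m hm
        constructor
        · rw [← sub_eq_zero, ← sub_mul]
          exact hJ3 _ (hJ2 x) _ hm
        · rw [← sub_eq_zero, ← mul_sub]
          exact hJ3 _ hm _ (hJ2 x))
      (fun m _ => h.p1 m) (fun I _ hI => hrI I hI)
    -- the annihilator of `J` is contained in `J`
    have hA : ∀ x : R, (∀ j ∈ J, x * j = 0) → (∀ j ∈ J, j * x = 0) → x ∈ J := by
      intro x hx1 hx2
      let A : TwoSidedIdeal R := TwoSidedIdeal.mk'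
        {x | ∀ j ∈ J, x * j = 0 ∧ j * x = 0}
        (fun j _ => by simp)
        (by
          intro a b ha hb j hj
          rw [add_mul, mul_add, (ha j hj).1, (ha j hj).2, (hb j hj).1, (hb j hj).2]; simp)
        (by
          intro a ha j hj
          rw [neg_mul, mul_neg, (ha j hj).1, (ha j hj).2]; simp)
        (by
          intro a b hb j hj
          refine ⟨by rw [mul_assoc, (hb j hj).1, mul_zero], ?_⟩
          rw [← mul_assoc, (hb _ (J.mul_mem_right _ _ hj)).2])
        (by
          intro a b ha j hj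
          refine ⟨by rw [mul_assoc, (ha _ (J.mul_mem_left _ _ hj)).1], ?_⟩
          rw [← mul_assoc, (ha j hj).2, zero_mul])
      have hAm : ∀ x, x ∈ A ↔ ∀ j ∈ J, x * j = 0 ∧ j * x = 0 := fun x => TwoSidedIdeal.mem_mk' ..
      have hxA : x ∈ A := (hAm x).2 fun j hj => ⟨hx1 j hj, hx2 j hj⟩
      set j := pwr x Q - x with hj
      have hjJ : j ∈ J := hJ2 x
      have hxj : pwr x Q = x + j := by rw [hj]; abel
      have hpow : ∀ n, pwr (x + j) (n + 1) = pwr x (n + 1) := by
        intro n
        induction n with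
        | zero =>
          simp only [pwr]
          rw [mul_add, add_mul, add_mul, hx1 j hjJ, hx2 j hjJ, hJ3 j hjJ j hjJ]
          simp
        | succ n ih =>
          rw [pwr, ih, pwr, mul_add, mul_assoc (pwr x n) x j, hx1 j hjJ, mul_zero, add_zero]
          rfl
      obtain ⟨q, rfl⟩ : ∃ q, Q = q + 1 := ⟨Q - 1, by omega⟩
      set y := pwr x (q + 1) with hy
      have hyA : y ∈ A := pwr_mem A hxA _
      have hyy : pwr y (q + 1) = y := by
        rw [hxj, hpow, ← hy, hxj]
      set e := pwr y q with he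
      have hey : e * y = y := hyy
      have heA : e ∈ A := pwr_mem A hyA _
      have hen : ∀ n, e * pwr y n = pwr y n := by
        intro n
        induction n with
        | zero => exact hey
        | succ n ih => rw [pwr, ← mul_assoc, ih]
      have hee : e * e = e := hen q
      have hcent : ∀ z, e * z = z * e := by
        intro z
        have hz := hJ1 e z
        have h1 := ((hAm e).1 heA _ hz).1
        have h2 := ((hAm e).1 heA _ hz).2
        rw [mul_sub, ← mul_assoc, hee, ← mul_assoc] at h1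
        rw [sub_mul, mul_assoc z, hee] at h2
        exact (sub_eq_zero.1 h1).trans (sub_eq_zero.1 h2)
      let E : TwoSidedIdeal R := TwoSidedIdeal.mk' {z | e * z = z}
        (mul_zero e)
        (by
          intro a b ha hb
          change e * (a + b) = a + b
          rw [mul_add, ha, hb])
        (by
          intro a ha
          change e * (-a) = -a
          rw [mul_neg, ha])
        (by
          intro a b hb
          change e * (a * b) = a * b
          rw [← mul_assoc, hcent a, mul_assoc, hb])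
        (by
          intro a b ha
          change e * (a * b) = a * b
          rw [← mul_assoc, ha])
      have hEm : ∀ z, z ∈ E ↔ e * z = z := fun z => TwoSidedIdeal.mem_mk' ..
      have he0 : e = 0 := by
        by_contra hne
        have h1 := (hEm r).1 (hrI E ⟨e, (hEm e).2 hee, hne⟩)
        rw [((hAm e).1 heA r hrJ).1] at h1
        exact hr0 h1.symm
      have hy0 : y = 0 := by rw [← hey, he0, zero_mul]
      have : x = -j := by
        rw [hy0] at hxj
        exact eq_neg_of_add_eq_zero_left hxj.symm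
      rw [this]
      exact J.neg_mem hjJ
    -- counting
    let f : R →+ J × J :=
      { toFun := fun x => (⟨x * r, J.mul_mem_left _ _ hrJ⟩, ⟨r * x, J.mul_mem_right _ _ hrJ⟩)
        map_zero' := Prod.ext (Subtype.ext (zero_mul r)) (Subtype.ext (mul_zero r))
        map_add' := fun a b => Prod.ext (Subtype.ext (add_mul a b r)) (Subtype.ext (mul_add r a b)) }
    have hker : ∀ x ∈ f.ker, x ∈ J := by
      intro x hx
      have h1 : x * r = 0 := congrArg (fun z => (z.1 : R)) hx
      have h2 : r * x = 0 := congrArg (fun z => (z.2 : R)) hx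
      exact hA x (hL x h1) (hR x h2)
    have e1 : Nat.card f.ker ≤ Nat.card J :=
      Nat.card_le_card_of_injective (fun x : f.ker => (⟨x, hker x x.2⟩ : J))
        (fun a b hab => by
          have := congrArg Subtype.val hab
          exact Subtype.ext this)
    have e2 : f.ker.index ≤ Nat.card (J × J) := by
      rw [AddSubgroup.index_ker]
      exact Nat.card_le_card_of_injective (fun x : f.range => (x : J × J)) Subtype.val_injective
    have e3 := AddSubgroup.card_mul_index f.ker
    rw [Nat.card_prod] at e2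
    calc Nat.card R = Nat.card f.ker * f.ker.index := e3.symm
      _ ≤ (Q + 1) * ((Q + 1) * (Q + 1)) :=
          Nat.mul_le_mul (e1.trans hcard) (e2.trans (Nat.mul_le_mul hcard hcard))
      _ = (Q + 1) ^ 3 := by ring
  · push Not at hJ
    have hcard := (si_module hp hQ hQ1 (⊤ : TwoSidedIdeal R) r trivial hr0
      (by
        intro x y m _
        have := sub_eq_zero.1 (hJ _ (hJ1 x y))
        rw [this]; exact ⟨rfl, rfl⟩)
      (by
        intro x m _
        have := sub_eq_zero.1 (hJ _ (hJ2 x))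
        rw [this]; exact ⟨rfl, rfl⟩)
      (fun m _ => h.p1 m) (fun I _ hI => hrI I hI)).1
    have e1 : Nat.card R ≤ Nat.card (⊤ : TwoSidedIdeal R) :=
      Nat.card_le_card_of_injective (fun x : R => (⟨x, trivial⟩ : (⊤ : TwoSidedIdeal R)))
        (fun a b hab => congrArg Subtype.val hab)
    calc Nat.card R ≤ Q + 1 := e1.trans hcard
      _ ≤ (Q + 1) ^ 3 := Nat.le_self_pow (by norm_num) _

end Pool.Agent.H105R2.NE
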