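import Pool.Agent.H105R2.NE.Tri
import Pool.Agent.H105R2.NE.Poly
import Pool.Agent.H105R2.NE.SIb

/-! Minimal non-Engel varieties are Cross varieties. -/

namespace Pool.Agent.H105R2.NE

open MvPolynomial

variable {K : Type} [Field K]

/-- the comparison map between the two versions of the triangular ring -/
theorem exists_compare (α β : K) :
    ∃ g : NonUnitalSubring.closure (Set.range (zU α β)) →ₙ+* Tri K α β, Function.Bijective g := by
  let f : UT K →ₙ+* Matrix (Fin 2) (Fin 2) K :=
    { toFun := fun M => M.1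
      map_mul' := fun _ _ => rfl
      map_zero' := rfl
      map_add' := fun _ _ => rfl }
  have hf : Function.Injective f := Subtype.val_injective
  have hz0 : f (zU α β 0) = !![0, 1; 0, 0] := rfl
  have hz1 : f (zU α β 1) = !![α, 0; 0, β] := rfl
  have h1 : ∀ x ∈ NonUnitalSubring.closure (Set.range (zU α β)), f x ∈ Tri K α β := by
    intro x hx
    induction hx using NonUnitalSubring.closure_induction with
    | mem x hx =>
      obtain ⟨i, rfl⟩ := hx
      fin_cases i
      · change f (zU α β 0) ∈ Tri K α β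
        rw [hz0]
        exact NonUnitalSubring.subset_closure (by simp)
      · change f (zU α β 1) ∈ Tri K α β
        rw [hz1]
        exact NonUnitalSubring.subset_closure (by simp)
    | zero => rw [map_zero]; exact zero_mem _
    | add x y _ _ hx hy => rw [map_add]; exact add_mem hx hy
    | neg x _ hx => rw [map_neg]; exact neg_mem hx
    | mul x y _ _ hx hy => rw [map_mul]; exact mul_mem hx hy
  have h2 : ∀ y ∈ Tri K α β, ∃ x ∈ NonUnitalSubring.closure (Set.range (zU α β)), f x = y := by
    intro y hy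
    unfold Tri at hy
    induction hy using NonUnitalSubring.closure_induction with
    | mem y hy =>
      rcases hy with rfl | hy
      · exact ⟨zU α β 0, NonUnitalSubring.subset_closure ⟨0, rfl⟩, hz0⟩
      · rw [Set.mem_singleton_iff] at hy
        subst hy
        exact ⟨zU α β 1, NonUnitalSubring.subset_closure ⟨1, rfl⟩, hz1⟩
    | zero => exact ⟨0, zero_mem _, map_zero f⟩
    | add x y _ _ hx hy =>
      obtain ⟨a, ha, rfl⟩ := hx
      obtain ⟨b, hb, rfl⟩ := hy
      exact ⟨a + b, add_mem ha hb, map_add f a b⟩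
    | neg x _ hx =>
      obtain ⟨a, ha, rfl⟩ := hx
      exact ⟨-a, neg_mem ha, map_neg f a⟩
    | mul x y _ _ hx hy =>
      obtain ⟨a, ha, rfl⟩ := hx
      obtain ⟨b, hb, rfl⟩ := hy
      exact ⟨a * b, mul_mem ha hb, map_mul f a b⟩
  refine ⟨{ toFun := fun x => ⟨f x, h1 x x.2⟩
            map_mul' := fun a b => Subtype.ext (map_mul f (a : UT K) b)
            map_zero' := Subtype.ext (map_zero f)
            map_add' := fun a b => Subtype.ext (map_add f (a : UT K) b) }, ?_, ?_⟩
  · intro a b hab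
    have := congrArg Subtype.val hab
    exact Subtype.ext (hf this)
  · rintro ⟨y, hy⟩
    obtain ⟨x, hx, rfl⟩ := h2 y hy
    exact ⟨⟨x, hx⟩, rfl⟩

theorem inVar_tri_iff (T : Set RTerm) (α β : K) :
    InVar T (NonUnitalSubring.closure (Set.range (zU α β))) ↔ InVar T (Tri K α β) := by
  obtain ⟨g, hg⟩ := exists_compare α β
  exact ⟨fun h => h.of_surjective g hg.2, fun h => h.of_injective g hg.1⟩

theorem not_engel_of_closure {T : Set RTerm} {α β : K} (hne : α ≠ β)
    (h : InVar T (NonUnitalSubring.closure (Set.range (zU α β)))) : ¬ Engel T := by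
  rintro ⟨n, _, hn⟩
  let S := NonUnitalSubring.closure (Set.range (zU α β))
  let x : S := ⟨zU α β 0, NonUnitalSubring.subset_closure ⟨0, rfl⟩⟩
  let y : S := ⟨zU α β 1, NonUnitalSubring.subset_closure ⟨1, rfl⟩⟩
  have h1 := hn S h x y
  have h2 := eng_map (NonUnitalSubringClass.subtype S) n x y
  rw [h1, map_zero] at h2
  have h3 : eng n (Eu 1 : UT K) (Du α β) = 0 := h2.symm
  rw [eng_EuDu, mul_one] at h3
  have h4 : (Eu ((β - α) ^ n) : UT K).1 0 1 = 0 := by rw [h3]; rfl
  rw [Eu01] at h4
  exact hne (sub_eq_zero.1 (eq_zero_of_pow_eq_zero h4)).symm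

theorem exists_tri {T : Set RTerm} (h : ¬ Engel T) :
    ∃ (K : Type) (_ : Field K) (_ : Finite K) (α β : K), α ≠ β ∧
      InVar T (NonUnitalSubring.closure (Set.range (zU α β))) :=
  alternative_one fun h' => h (alternative_two h')

theorem engel_iff (T : Set RTerm) : Engel T ↔
    ∀ (K : Type) [Field K] [Finite K] (α β : K), InVar T (Tri K α β) → α = β := by
  constructor
  · intro h K _ _ α β hT
    by_contra hne
    exact not_engel_of_closure hne ((inVar_tri_iff T α β).2 hT) h
  · intro h
    by_contra hne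
    obtain ⟨K, _, _, α, β, hαβ, hT⟩ := exists_tri hne
    exact hαβ (h K α β ((inVar_tri_iff T α β).1 hT))

theorem generated (T : Set RTerm) (hT : MinNonEngel T) :
    ∃ (K : Type) (_ : Field K) (_ : Finite K) (α β : K), α ≠ β ∧
      SubVar T {t | Holds (Tri K α β) t} ∧ SubVar {t | Holds (Tri K α β) t} T := by
  obtain ⟨K, _, _, α, β, hαβ, hR0⟩ := exists_tri hT.1
  have hR0' := (inVar_tri_iff T α β).1 hR0
  have hsub : SubVar {t | Holds (Tri K α β) t} T := fun R _ hR t ht => hR t (hR0' t ht)
  refine ⟨K, inferInstance, inferInstance, α, β, hαβ, ?_, hsub⟩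
  by_contra hcon
  have h1 := hT.2 _ hsub hcon
  refine not_engel_of_closure hαβ ?_ h1
  rw [inVar_tri_iff]
  intro t ht
  exact ht

theorem cross (T : Set RTerm) (hT : MinNonEngel T) : Cross T := by
  obtain ⟨K, _, _, α, β, hαβ, hR0⟩ := exists_tri hT.1
  have := Fintype.ofFinite K
  obtain ⟨p, hp⟩ := CharP.exists K
  obtain ⟨k, hpp, hk⟩ := FiniteField.card K p
  have hcardpos : 1 < Nat.card K := Finite.one_lt_card
  obtain ⟨Q, hQ⟩ : ∃ Q, Q + 1 = Nat.card K := ⟨Nat.card K - 1, by omega⟩
  have hQ1 : 1 ≤ Q := by omega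
  have hQk : Q + 1 = p ^ (k : ℕ) := by rw [hQ, Nat.card_eq_fintype_card, hk]
  have hPW : PW p Q (UT K) := PW_UT hQ
  have hR0' : InVar (T0 p Q) (NonUnitalSubring.closure (Set.range (zU α β))) :=
    InVar.subring (inVar_T0_of hPW) _
  have hsub : SubVar (T ∪ T0 p Q) T := fun R _ hR t ht => hR t (Or.inl ht)
  have hsub' : SubVar T (T ∪ T0 p Q) := by
    by_contra hcon
    refine not_engel_of_closure hαβ ?_ (hT.2 _ hsub hcon)
    rintro t (ht | ht)
    · exact hR0 t ht
    · exact hR0' t ht
  refine cross_of_bound T (T0 p Q) (T0_finite p Q) (fun R _ hR t ht => hsub' R hR t (Or.inr ht))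
    ?_ ((Q + 1) ^ 3) ?_
  · rintro R _ hR ⟨X, hX, hgen⟩
    exact locallyFinite_PW hpp.pos hQ1 (of_inVar_T0 hR) X hX hgen
  · intro R _ _ r hR hr
    exact si_bound hpp hQk hQ1 (of_inVar_T0 hR) r hr

end Pool.Agent.H105R2.NE
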