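import Pool.Agent.H105R2.NE.Defs

/-! Quotients, maximal ideals avoiding a set, subdirectly irreducible rings. -/

namespace Pool.Agent.H105R2.NE

universe u

/-- quotient of a non-unital ring by a two-sided ideal -/
abbrev Quo {R : Type u} [NonUnitalRing R] (I : TwoSidedIdeal R) : Type u := I.ringCon.Quotient

/-- the quotient map -/
def quo {R : Type u} [NonUnitalRing R] (I : TwoSidedIdeal R) : R →ₙ+* Quo I where
  toFun := fun x => (x : I.ringCon.Quotient)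
  map_mul' := I.ringCon.coe_mul
  map_zero' := I.ringCon.coe_zero
  map_add' := I.ringCon.coe_add

theorem quo_surj {R : Type u} [NonUnitalRing R] (I : TwoSidedIdeal R) :
    Function.Surjective (quo I) := by
  intro x
  obtain ⟨y, rfl⟩ := Quotient.mk''_surjective x
  exact ⟨y, rfl⟩

theorem quo_eq_zero {R : Type u} [NonUnitalRing R] (I : TwoSidedIdeal R) {x : R} :
    quo I x = 0 ↔ x ∈ I := by
  rw [TwoSidedIdeal.mem_iff, ← map_zero (quo I)]
  exact I.ringCon.eq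

theorem exists_maximal_avoiding {R : Type u} [NonUnitalRing R] (W : Set R) (hW : (0 : R) ∉ W) :
    ∃ P : TwoSidedIdeal R, (∀ x ∈ P, x ∉ W) ∧
      ∀ Q : TwoSidedIdeal R, P ≤ Q → (∀ x ∈ Q, x ∉ W) → Q ≤ P := by
  let 𝒮 : Set (TwoSidedIdeal R) := {P | ∀ x ∈ P, x ∉ W}
  have h0 : (⊥ : TwoSidedIdeal R) ∈ 𝒮 := by
    intro x hx
    rw [TwoSidedIdeal.mem_bot] at hx
    rw [hx]; exact hW
  obtain ⟨P, -, hP⟩ := zorn_le_nonempty₀ 𝒮 (by
    intro c hc hchain y hy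
    have hdir : ∀ P ∈ c, ∀ Q ∈ c, ∃ T ∈ c, P ≤ T ∧ Q ≤ T := by
      intro P hP Q hQ
      rcases hchain.total hP hQ with h | h
      · exact ⟨Q, hQ, h, le_rfl⟩
      · exact ⟨P, hP, le_rfl, h⟩
    let U : TwoSidedIdeal R := TwoSidedIdeal.mk' {x | ∃ P ∈ c, x ∈ P}
      ⟨y, hy, y.zero_mem⟩
      (by
        rintro a b ⟨P, hP, ha⟩ ⟨Q, hQ, hb⟩
        obtain ⟨T, hT, h1, h2⟩ := hdir P hP Q hQ
        exact ⟨T, hT, T.add_mem (h1 ha) (h2 hb)⟩)
      (by rintro a ⟨P, hP, ha⟩; exact ⟨P, hP, P.neg_mem ha⟩)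
      (by rintro a b ⟨P, hP, hb⟩; exact ⟨P, hP, P.mul_mem_left _ _ hb⟩)
      (by rintro a b ⟨P, hP, ha⟩; exact ⟨P, hP, P.mul_mem_right _ _ ha⟩)
    refine ⟨U, ?_, ?_⟩
    · intro x hx
      rw [TwoSidedIdeal.mem_mk'] at hx
      obtain ⟨P, hP, hx⟩ := hx
      exact hc hP x hx
    · intro P hP x hx
      change x ∈ U
      rw [TwoSidedIdeal.mem_mk']
      exact ⟨P, hP, hx⟩) ⊥ h0
  exact ⟨P, hP.prop, fun Q hQ1 hQ2 => hP.le_of_ge hQ2 hQ1⟩

/-- `r` is a nonzero element lying in every nonzero ideal. -/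
def SI (R : Type u) [NonUnitalRing R] (r : R) : Prop :=
  r ≠ 0 ∧ ∀ I : TwoSidedIdeal R, (∃ x ∈ I, x ≠ 0) → r ∈ I

theorem exists_quo_SI {R : Type u} [NonUnitalRing R] (r : R) (hr : r ≠ 0) :
    ∃ P : TwoSidedIdeal R, SI (Quo P) (quo P r) := by
  obtain ⟨P, hP1, hP2⟩ := exists_maximal_avoiding ({r} : Set R) (by simpa using hr.symm)
  refine ⟨P, ?_, ?_⟩
  · rw [Ne, quo_eq_zero]
    intro h
    exact hP1 r h rfl
  · rintro I ⟨x, hx, hx0⟩
    obtain ⟨x, rfl⟩ := quo_surj P x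
    rw [Ne, quo_eq_zero] at hx0
    by_contra hrI
    apply hx0
    refine hP2 (I.comap (quo P)) ?_ ?_ ?_
    · intro z hz
      change z ∈ I.comap (quo P)
      rw [TwoSidedIdeal.mem_comap, (quo_eq_zero P).2 hz]
      exact I.zero_mem
    · intro z hz hzW
      rw [Set.mem_singleton_iff] at hzW
      rw [TwoSidedIdeal.mem_comap, hzW] at hz
      exact hrI hz
    · change x ∈ I.comap (quo P)
      rw [TwoSidedIdeal.mem_comap]; exact hx

end Pool.Agent.H105R2.NE
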