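import Pool.Agent.H105R2.NE.Defs

/-! The finite rings of triangular matrices which generate the minimal non-Engel varieties. -/

namespace Pool.Agent.H105R2.NE

/-- The ring of `2 × 2` matrices over `K` generated by `e₁₂` and `diag(α, β)`. -/
def Tri (K : Type) [Field K] (α β : K) : NonUnitalSubring (Matrix (Fin 2) (Fin 2) K) :=
  NonUnitalSubring.closure {!![0, 1; 0, 0], !![α, 0; 0, β]}

end Pool.Agent.H105R2.NE
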