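import Pool.Agent.H105R2.NE.Lin2

/-! Upper triangular `2 × 2` matrices; evaluation of words. -/

namespace Pool.Agent.H105R2.NE

open MvPolynomial

/-- upper triangular `2 × 2` matrices -/
def UT (B : Type) [CommRing B] : Subring (Matrix (Fin 2) (Fin 2) B) where
  carrier := {M | M 1 0 = 0}
  mul_mem' := by
    intro M N hM hN
    simp only [Set.mem_ofPred_eq] at hM hN ⊢
    rw [Matrix.mul_apply, Fin.sum_univ_two, hM, hN]; simp
  one_mem' := by simp
  add_mem' := by
    intro M N hM hN
    simp only [Set.mem_ofPred_eq] at hM hN ⊢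
    rw [Matrix.add_apply, hM, hN, add_zero]
  zero_mem' := by simp
  neg_mem' := by
    intro M hM
    simp only [Set.mem_ofPred_eq] at hM ⊢
    rw [Matrix.neg_apply, hM, neg_zero]

section

variable {B : Type} [CommRing B]

theorem ut10 (M : UT B) : M.1 1 0 = 0 := M.2

theorem ut_ext {M N : UT B} (h0 : M.1 0 0 = N.1 0 0) (h1 : M.1 0 1 = N.1 0 1)
    (h2 : M.1 1 1 = N.1 1 1) : M = N := by
  apply Subtype.ext
  ext i j
  fin_cases i <;> fin_cases j
  · exact h0
  · exact h1
  · exact (ut10 M).trans (ut10 N).symm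
  · exact h2

theorem ut_mul00 (M N : UT B) : (M * N).1 0 0 = M.1 0 0 * N.1 0 0 := by
  change (M.1 * N.1) 0 0 = _
  rw [Matrix.mul_apply, Fin.sum_univ_two, ut10 N]; simp

theorem ut_mul01 (M N : UT B) : (M * N).1 0 1 = M.1 0 0 * N.1 0 1 + M.1 0 1 * N.1 1 1 := by
  change (M.1 * N.1) 0 1 = _
  rw [Matrix.mul_apply, Fin.sum_univ_two]

theorem ut_mul11 (M N : UT B) : (M * N).1 1 1 = M.1 1 1 * N.1 1 1 := by
  change (M.1 * N.1) 1 1 = _
  rw [Matrix.mul_apply, Fin.sum_univ_two, ut10 M]; simp

theorem ut_add (M N : UT B) (i j : Fin 2) : (M + N).1 i j = M.1 i j + N.1 i j := rfl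

theorem ut_sub (M N : UT B) (i j : Fin 2) : (M - N).1 i j = M.1 i j - N.1 i j := rfl

theorem ut_neg (M : UT B) (i j : Fin 2) : (-M).1 i j = -M.1 i j := rfl

theorem ut_zero (i j : Fin 2) : (0 : UT B).1 i j = 0 := rfl

theorem ut_zsmul (k : ℤ) (M : UT B) (i j : Fin 2) : (k • M).1 i j = k • M.1 i j := rfl

/-- the matrix with the single entry `c` in position `(0, 1)` -/
def Eu (c : B) : UT B := ⟨!![0, c; 0, 0], by change !![0, c; 0, 0] 1 0 = (0 : B); simp⟩

/-- diagonal matrices -/
def Du (a b : B) : UT B := ⟨!![a, 0; 0, b], by change !![a, 0; 0, b] 1 0 = (0 : B); simp⟩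

@[simp] theorem Eu00 (c : B) : (Eu c).1 0 0 = 0 := rfl
@[simp] theorem Eu01 (c : B) : (Eu c).1 0 1 = c := rfl
@[simp] theorem Eu11 (c : B) : (Eu c).1 1 1 = 0 := rfl
@[simp] theorem Du00 (a b : B) : (Du a b).1 0 0 = a := rfl
@[simp] theorem Du01 (a b : B) : (Du a b).1 0 1 = 0 := rfl
@[simp] theorem Du11 (a b : B) : (Du a b).1 1 1 = b := rfl

theorem Du_mul (a b c d : B) : Du a b * Du c d = Du (a * c) (b * d) := by
  apply ut_ext <;> simp [ut_mul00, ut_mul01, ut_mul11]

theorem Du_Eu (a b c : B) : Du a b * Eu c = Eu (a * c) := by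
  apply ut_ext <;> simp [ut_mul00, ut_mul01, ut_mul11]

theorem Eu_Du (a b c : B) : Eu c * Du a b = Eu (c * b) := by
  apply ut_ext <;> simp [ut_mul00, ut_mul01, ut_mul11]

theorem Eu_sq (M : UT B) (c d : B) : Eu c * M * Eu d = 0 := by
  apply ut_ext <;> simp [ut_mul00, ut_mul01, ut_mul11, ut_zero]

theorem Du_one : (Du 1 1 : UT B) = 1 := by
  apply ut_ext
  · rfl
  · rfl
  · rfl

/-- the evaluation points -/
def zU (s t : B) : Fin 2 → UT B := ![Eu 1, Du s t]

theorem word_zero (s t : B) (k : ℕ) :
    ((List.replicate k (1 : Fin 2)).map (zU s t)).prod = Du (s ^ k) (t ^ k) := by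
  induction k with
  | zero => simp [Du_one]
  | succ k ih =>
    rw [List.replicate_succ, List.map_cons, List.prod_cons, ih]
    change Du s t * _ = _
    rw [Du_mul, ← pow_succ', ← pow_succ']

theorem word_one (s t : B) (i j : ℕ) :
    ((List.replicate i (1 : Fin 2) ++ 0 :: List.replicate j 1).map (zU s t)).prod
      = Eu (s ^ i * t ^ j) := by
  rw [List.map_append, List.prod_append, List.map_cons, List.prod_cons, word_zero, word_zero]
  change Du _ _ * (Eu 1 * Du _ _) = _
  rw [Eu_Du, Du_Eu, one_mul]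

theorem word_two (s t : B) (w : List (Fin 2)) (hw : 2 ≤ w.count 0) :
    (w.map (zU s t)).prod = 0 :=
  word_sq (zU s t) (fun M => Eu_sq M 1 1) w hw

end

theorem list_zero (w : List (Fin 2)) (h : w.count 0 = 0) : w = List.replicate w.length 1 := by
  refine List.eq_replicate_iff.2 ⟨rfl, fun b hb => ?_⟩
  have : b ≠ 0 := by
    rintro rfl
    have := List.count_pos_iff.2 hb
    omega
  omega

theorem list_one (w : List (Fin 2)) (h : w.count 0 = 1) :
    ∃ i j, w = List.replicate i 1 ++ 0 :: List.replicate j 1 := by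
  have hmem : (0 : Fin 2) ∈ w := List.count_pos_iff.1 (by omega)
  obtain ⟨u, v, rfl⟩ := List.append_of_mem hmem
  rw [List.count_append, List.count_cons_self] at h
  exact ⟨u.length, v.length, by rw [← list_zero u (by omega), ← list_zero v (by omega)]⟩

theorem functional {A : Type} [Ring A] (z : Fin 2 → A) (g : List (Fin 2) →₀ ℤ)
    (w : List (Fin 2)) (Φ : A →+ ℤ)
    (h : ∀ v : List (Fin 2), Φ (v.map z).prod = if v = w then 1 else 0) :
    Φ (evf z g) = g w := by
  classical
  unfold evf
  rw [Finsupp.sum, map_sum, Finset.sum_eq_single w]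
  · rw [map_zsmul, h, if_pos rfl]; simp
  · intro v _ hv
    rw [map_zsmul, h, if_neg hv, smul_zero]
  · intro hw
    rw [Finsupp.notMem_support_iff.1 hw, zero_smul, map_zero]

/-- bivariate integral polynomials -/
abbrev PP : Type := MvPolynomial (Fin 2) ℤ

theorem coeff_mono (i j i' j' : ℕ) :
    MvPolynomial.coeff (Finsupp.single 0 i + Finsupp.single 1 j)
      ((X 0 ^ i' * X 1 ^ j' : PP)) = if i' = i ∧ j' = j then 1 else 0 := by
  have h1 : (X 0 ^ i' * X 1 ^ j' : PP)
      = monomial (Finsupp.single 0 i' + Finsupp.single 1 j') 1 := by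
    rw [X_pow_eq_monomial, X_pow_eq_monomial, monomial_mul, mul_one]
  rw [h1, coeff_monomial]
  congr 1
  rw [eq_iff_iff]
  constructor
  · intro h
    have h0 := DFunLike.congr_fun h 0
    have h1 := DFunLike.congr_fun h 1
    simp at h0 h1
    exact ⟨h0, h1⟩
  · rintro ⟨rfl, rfl⟩; rfl

/-- functional extracting the coefficient of `w = y ^ i x y ^ j` -/
noncomputable def fun01 (i j : ℕ) : UT PP →+ ℤ where
  toFun := fun M => MvPolynomial.coeff (Finsupp.single 0 i + Finsupp.single 1 j) (M.1 0 1)
  map_zero' := by simp [ut_zero]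
  map_add' := by intro M N; simp [ut_add]

/-- functional extracting the coefficient of `w = y ^ i` -/
noncomputable def fun00 (i : ℕ) : UT PP →+ ℤ where
  toFun := fun M => MvPolynomial.coeff (Finsupp.single 0 i + Finsupp.single 1 0) (M.1 0 0)
  map_zero' := by simp [ut_zero]
  map_add' := by intro M N; simp [ut_add]

theorem coeff_one (g : List (Fin 2) →₀ ℤ) (i j : ℕ) :
    fun01 i j (evf (zU (X 0 : PP) (X 1)) g)
      = g (List.replicate i 1 ++ 0 :: List.replicate j 1) := by
  apply functional
  intro v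
  rcases Nat.lt_or_ge (v.count 0) 2 with h2 | h2
  · rcases (by omega : v.count 0 = 0 ∨ v.count 0 = 1) with h | h
    · rw [if_neg (by
        rintro rfl
        rw [List.count_append, List.count_cons_self] at h
        omega)]
      rw [list_zero v h, word_zero]
      exact MvPolynomial.coeff_zero _
    · obtain ⟨i', j', rfl⟩ := list_one v h
      rw [word_one]
      change MvPolynomial.coeff (Finsupp.single 0 i + Finsupp.single 1 j)
        (X 0 ^ i' * X 1 ^ j' : PP) = _
      rw [coeff_mono]
      congr 1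
      rw [eq_iff_iff]
      constructor
      · rintro ⟨rfl, rfl⟩; rfl
      · intro h
        have h3 := (List.append_cons_inj_of_notMem (a₂ := (0 : Fin 2))
          (x₁ := List.replicate i' 1) (z₁ := List.replicate j' 1) (a₁ := 0)
          (by simp [List.mem_replicate]) (by simp [List.mem_replicate])).1 h
        have h4 := congrArg List.length h3.1
        have h5 := congrArg List.length h3.2.2
        simp at h4 h5
        exact ⟨h4, h5⟩
  · rw [word_two _ _ v h2, map_zero, if_neg]
    rintro rfl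
    rw [List.count_append, List.count_cons_self] at h2
    simp [List.count_replicate] at h2

theorem coeff_zero (g : List (Fin 2) →₀ ℤ) (i : ℕ) :
    fun00 i (evf (zU (X 0 : PP) (X 1)) g) = g (List.replicate i 1) := by
  apply functional
  intro v
  rcases Nat.lt_or_ge (v.count 0) 2 with h2 | h2
  · rcases (by omega : v.count 0 = 0 ∨ v.count 0 = 1) with h | h
    · rw [list_zero v h, word_zero]
      change MvPolynomial.coeff (Finsupp.single 0 i + Finsupp.single 1 0)
        (X 0 ^ v.length : PP) = _
      have := coeff_mono i 0 v.length 0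
      rw [pow_zero, mul_one] at this
      rw [this]
      congr 1
      rw [eq_iff_iff]
      constructor
      · rintro ⟨h1, -⟩; rw [h1]
      · intro h; exact ⟨by simpa using congrArg List.length h, rfl⟩
    · obtain ⟨i', j', rfl⟩ := list_one v h
      rw [word_one, if_neg]
      · simp [fun00]
      · intro h'
        rw [h'] at h
        simp [List.count_replicate] at h
  · rw [word_two _ _ v h2, map_zero, if_neg]
    rintro rfl
    simp [List.count_replicate] at h2

theorem degTwo_of_ev (g : List (Fin 2) →₀ ℤ) (h : evf (zU (X 0 : PP) (X 1)) g = 0) :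
    DegTwo g := by
  intro w hw
  by_contra hcon
  rcases (by omega : w.count 0 = 0 ∨ w.count 0 = 1) with h0 | h1
  · apply hw
    rw [list_zero w h0, ← coeff_zero, h, map_zero]
  · obtain ⟨i, j, rfl⟩ := list_one w h1
    apply hw
    rw [← coeff_one, h, map_zero]

end Pool.Agent.H105R2.NE
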