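import Pool.Agent.H105R2.NE.Dom

/-! If the extended centroid is large, homogeneous components can be separated. -/

namespace Pool.Agent.H105R2.NE

/-- evaluation of a polynomial with left coefficients, given by its list of coefficients -/
def evl {A : Type} [Ring A] (b : A) : List A → A
  | [] => 0
  | c :: l => c + evl b l * b

/-- synthetic division -/
def syn {A : Type} [Ring A] (b : A) : List A → List A
  | [] => []
  | [_] => []
  | _ :: c :: l => evl b (c :: l) :: syn b (c :: l)

theorem syn_length {A : Type} [Ring A] (b : A) (l : List A) : (syn b l).length = l.length - 1 := by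
  induction l with
  | nil => rfl
  | cons c l ih =>
    cases l with
    | nil => rfl
    | cons d l =>
      simp only [syn, List.length_cons] at ih ⊢
      omega

theorem evl_sub {A : Type} [Ring A] (b b0 : A) (h : Commute b b0) (l : List A) :
    evl b l - evl b0 l = evl b (syn b0 l) * (b - b0) := by
  induction l with
  | nil => simp [evl, syn]
  | cons c l ih =>
    cases l with
    | nil => simp [evl, syn]
    | cons d l =>
      have e1 : syn b0 (c :: d :: l) = evl b0 (d :: l) :: syn b0 (d :: l) := rfl
      have e2 : evl b (c :: d :: l) = c + evl b (d :: l) * b := rfl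
      have e3 : evl b0 (c :: d :: l) = c + evl b0 (d :: l) * b0 := rfl
      have e4 : evl b (evl b0 (d :: l) :: syn b0 (d :: l))
        = evl b0 (d :: l) + evl b (syn b0 (d :: l)) * b := rfl
      rw [e1, e2, e3, e4, add_mul, mul_assoc _ b (b - b0)]
      have h2 : b * (b - b0) = (b - b0) * b := by rw [mul_sub, sub_mul, h.eq]
      rw [h2, ← mul_assoc, ← ih]
      noncomm_ring

theorem evl_vanish {A : Type} [Ring A] (b0 : A) (l : List A) (h0 : evl b0 l = 0)
    (h : ∀ c ∈ syn b0 l, c = 0) : ∀ c ∈ l, c = 0 := by
  induction l with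
  | nil => simp
  | cons c l ih =>
    cases l with
    | nil =>
      intro d hd
      rw [List.mem_singleton] at hd
      subst hd
      simpa [evl] using h0
    | cons d l =>
      have e1 : syn b0 (c :: d :: l) = evl b0 (d :: l) :: syn b0 (d :: l) := rfl
      have e3 : evl b0 (c :: d :: l) = c + evl b0 (d :: l) * b0 := rfl
      rw [e1] at h
      have h1 : evl b0 (d :: l) = 0 := h _ (List.mem_cons_self ..)
      have h2 := ih h1 (fun x hx => h x (List.mem_cons_of_mem _ hx))
      intro x hx
      rcases List.mem_cons.1 hx with rfl | hx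
      · rw [e3, h1, zero_mul, add_zero] at h0
        exact h0
      · exact h2 x hx

theorem vand {A : Type} [Ring A] [IsDomain A] (n : ℕ) : ∀ (l : List A) (B : Finset A),
    l.length = n → n ≤ B.card → (∀ b ∈ B, ∀ b' ∈ B, Commute b b') → (∀ b ∈ B, evl b l = 0) →
    ∀ c ∈ l, c = 0 := by
  classical
  induction n with
  | zero =>
    intro l B hl _ _ _ c hc
    rw [List.length_eq_zero_iff] at hl
    subst hl
    simp at hc
  | succ n ih =>
    intro l B hl hB hcomm h
    have hne : B.Nonempty := Finset.card_pos.1 (by omega)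
    obtain ⟨b0, hb0⟩ := hne
    refine evl_vanish b0 l (h b0 hb0) ?_
    refine ih (syn b0 l) (B.erase b0) ?_ ?_ ?_ ?_
    · rw [syn_length, hl]; rfl
    · rw [Finset.card_erase_of_mem hb0]; omega
    · intro b hb b' hb'
      exact hcomm b (Finset.mem_of_mem_erase hb) b' (Finset.mem_of_mem_erase hb')
    · intro b hb
      have hbB := Finset.mem_of_mem_erase hb
      have hbne : b ≠ b0 := Finset.ne_of_mem_erase hb
      have h1 := evl_sub b b0 (hcomm b hbB b0 hb0) l
      rw [h b hbB, h b0 hb0, sub_zero] at h1
      rcases mul_eq_zero.1 h1.symm with h2 | h2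
      · exact h2
      · exact absurd (sub_eq_zero.1 h2) hbne

theorem evl_range {A : Type} [Ring A] (b : A) (m : ℕ) : ∀ c : ℕ → A,
    evl b ((List.range m).map c) = ∑ d ∈ Finset.range m, c d * b ^ d := by
  induction m with
  | zero => intro c; simp [evl]
  | succ m ih =>
    intro c
    rw [List.range_succ_eq_map, List.map_cons, List.map_map, Finset.sum_range_succ', pow_zero,
      mul_one]
    simp only [evl]
    rw [ih, add_comm, Finset.sum_mul]
    congr 1
    refine Finset.sum_congr rfl fun i _ => ?_
    rw [mul_assoc, ← pow_succ]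
    rfl

/-- elements proportional to `a` -/
def LL {A : Type} [Ring A] (a : A) : Set A := {b | ∀ x, a * x * b = b * x * a}

theorem LL_comm {A : Type} [Ring A] {a b : A} (hb : b ∈ LL a) : a * b = b * a := by
  simpa using hb 1

theorem LL_self {A : Type} [Ring A] (a : A) : a ∈ LL a := fun _ => rfl

theorem LL_zero {A : Type} [Ring A] (a : A) : (0 : A) ∈ LL a := fun x => by simp

theorem LL_add {A : Type} [Ring A] {a b c : A} (hb : b ∈ LL a) (hc : c ∈ LL a) :
    b + c ∈ LL a := by
  intro x; rw [mul_add, add_mul, add_mul, hb x, hc x]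

theorem LL_zsmul {A : Type} [Ring A] {a b : A} (k : ℤ) (hb : b ∈ LL a) : k • b ∈ LL a := by
  intro x; rw [mul_smul_comm, hb x, smul_mul_assoc, smul_mul_assoc]

theorem LL_mul_left {A : Type} [Ring A] {a b : A} (s : A) (hb : b ∈ LL a) : s * b ∈ LL (s * a) := by
  intro x
  have := hb (x * s)
  calc s * a * x * (s * b) = s * (a * (x * s) * b) := by noncomm_ring
    _ = s * (b * (x * s) * a) := by rw [this]
    _ = _ := by noncomm_ring

theorem LL_mul_right {A : Type} [Ring A] {a b : A} (s : A) (hb : b ∈ LL a) :
    b * s ∈ LL (a * s) := by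
  intro x
  have := hb (s * x)
  calc a * s * x * (b * s) = (a * (s * x) * b) * s := by noncomm_ring
    _ = (b * (s * x) * a) * s := by rw [this]
    _ = _ := by noncomm_ring

theorem LL_commute {A : Type} [Ring A] [IsDomain A] {a b c : A} (ha : a ≠ 0) (hb : b ∈ LL a)
    (hc : c ∈ LL a) : Commute b c := by
  have h1 : a * b * c * a = a * c * b * a := by
    calc a * b * c * a = b * a * c * a := by rw [LL_comm hb]
      _ = b * (a * c) * a := by noncomm_ring
      _ = a * (a * c) * b := by rw [hb]
      _ = a * (c * a) * b := by rw [LL_comm hc]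
      _ = a * c * (a * b) := by noncomm_ring
      _ = a * c * (b * a) := by rw [LL_comm hb]
      _ = _ := by noncomm_ring
  have h2 : a * (b * c - c * b) * a = 0 := by
    calc a * (b * c - c * b) * a = a * b * c * a - a * c * b * a := by noncomm_ring
      _ = 0 := by rw [h1, sub_self]
  rcases mul_eq_zero.1 h2 with h | h
  · rcases mul_eq_zero.1 h with h | h
    · exact absurd h ha
    · exact sub_eq_zero.1 h
  · exact absurd h ha

theorem eng_scale {A : Type} [Ring A] {u v a b : A} (h : ∀ x, v * x * a = u * x * b) (y : A)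
    (k : ℕ) : ∀ x, eng k v y * x * a = eng k u y * x * b := by
  induction k with
  | zero => exact h
  | succ k ih =>
    intro x
    simp only [eng]
    calc (eng k v y * y - y * eng k v y) * x * a
        = eng k v y * (y * x) * a - y * (eng k v y * x * a) := by noncomm_ring
      _ = eng k u y * (y * x) * b - y * (eng k u y * x * b) := by rw [ih, ih]
      _ = _ := by noncomm_ring

theorem word_scale {A : Type} [Ring A] {u v a b : A} (h : ∀ x, v * x * a = u * x * b) (y : A)
    (w : List (Fin 2)) : ∀ x, (w.map ![v, y]).prod * x * a ^ (w.count 0)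
      = (w.map ![u, y]).prod * x * b ^ (w.count 0) := by
  induction w with
  | nil => intro x; simp
  | cons l w ih =>
    intro x
    rw [List.map_cons, List.prod_cons, List.map_cons, List.prod_cons]
    by_cases hl : l = 0
    · subst hl
      rw [List.count_cons_self, pow_succ, pow_succ]
      change v * (w.map ![v, y]).prod * x * (a ^ w.count 0 * a)
        = u * (w.map ![u, y]).prod * x * (b ^ w.count 0 * b)
      calc v * (w.map ![v, y]).prod * x * (a ^ w.count 0 * a)
          = v * ((w.map ![v, y]).prod * x * a ^ w.count 0) * a := by simp only [mul_assoc]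
        _ = u * ((w.map ![u, y]).prod * x * b ^ w.count 0) * b := by rw [ih, h]
        _ = _ := by simp only [mul_assoc]
    · have hl1 : l = 1 := by omega
      subst hl1
      rw [List.count_cons_of_ne (by decide)]
      change y * (w.map ![v, y]).prod * x * (a ^ w.count 0)
        = y * (w.map ![u, y]).prod * x * (b ^ w.count 0)
      rw [mul_assoc y, mul_assoc y, mul_assoc y, mul_assoc y, ih]

namespace Setup

variable {n : ℕ} {g : List (Fin 2) →₀ ℤ} {A : Type} [Ring A] (D : Setup n g A)

include D

/-- the ideals on which multiplication by `b / a` is defined -/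
theorem exists_good (hg : DegTwo g) {a : A} (ha : a ≠ 0) (B : Finset A) (hB : ∀ b ∈ B, b ∈ LL a) :
    ∃ m, ∀ b ∈ B, ∃ v ∈ D.S, ∀ x, v * x * a = eng m D.x D.y * x * b := by
  classical
  have := D.isDomain hg
  induction B using Finset.induction_on with
  | empty => exact ⟨0, by simp⟩
  | insert b B hbB ih =>
    obtain ⟨m1, h1⟩ := ih fun c hc => hB c (Finset.mem_insert_of_mem hc)
    let I : TwoSidedIdeal A := TwoSidedIdeal.mk' {u | ∃ v ∈ D.S, ∀ x, v * x * a = u * x * b}
      ⟨0, D.S.zero_mem, by simp⟩
      (by
        rintro p q ⟨v, hv, h⟩ ⟨v', hv', h'⟩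
        exact ⟨v + v', D.S.add_mem hv hv', fun x => by
          rw [add_mul, add_mul, add_mul, add_mul, h, h']⟩)
      (by
        rintro p ⟨v, hv, h⟩
        exact ⟨-v, D.S.neg_mem hv, fun x => by rw [neg_mul, neg_mul, neg_mul, neg_mul, h]⟩)
      (by
        rintro p q ⟨v, hv, h⟩
        exact ⟨p * v, D.S.mul_mem_left _ _ hv, fun x => by
          rw [mul_assoc p, mul_assoc p, h, mul_assoc p, mul_assoc p]⟩)
      (by
        rintro p q ⟨v, hv, h⟩
        exact ⟨v * q, D.S.mul_mem_right _ _ hv, fun x => by
          rw [mul_assoc v, h, mul_assoc p q]⟩)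
    have hI : ∀ u, u ∈ I ↔ ∃ v ∈ D.S, ∀ x, v * x * a = u * x * b :=
      fun u => TwoSidedIdeal.mem_mk' ..
    obtain ⟨m2, h2⟩ := D.hI I ⟨a * D.x, (hI _).2 ⟨b * D.x, D.S.mul_mem_left _ _ D.hx, fun x => by
      have h5 := hB b (Finset.mem_insert_self _ _) (D.x * x)
      calc b * D.x * x * a = b * (D.x * x) * a := by noncomm_ring
        _ = a * (D.x * x) * b := h5.symm
        _ = _ := by noncomm_ring⟩, mul_ne_zero ha (D.hne 0)⟩
    refine ⟨max m1 m2, ?_⟩
    intro c hc
    rcases Finset.mem_insert.1 hc with rfl | hc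
    · exact (hI _).1 (D.mem_of_le I h2 (le_max_right _ _))
    · obtain ⟨v, hv, h3⟩ := h1 c hc
      obtain ⟨k, hk⟩ := Nat.exists_eq_add_of_le (le_max_left m1 m2)
      rw [hk, eng_add]
      exact ⟨eng k v D.y, eng_mem _ _ _ hv k, eng_scale h3 D.y k⟩

theorem case_one (hg : DegTwo g) (K : ℕ) (hK : ∀ w, g w ≠ 0 → w.count 0 ≤ K) (hK1 : 1 ≤ K)
    {a : A} (ha : a ≠ 0) (B : Finset A) (hB : ∀ b ∈ B, b ∈ LL a) : B.card ≤ K := by
  classical
  have := D.isDomain hg
  by_contra hcard
  push Not at hcard
  obtain ⟨m, hm⟩ := D.exists_good hg ha B hB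
  set u := eng m D.x D.y with hu
  let c : ℕ → A := fun d => (if d = 1 then eng n u D.y * a ^ (K - 1) else 0)
    - ∑ w ∈ g.support with w.count 0 = d, g w • ((w.map ![u, D.y]).prod * a ^ (K - d))
  have hc : ∀ b ∈ B, evl b ((List.range (K + 1)).map c) = 0 := by
    intro b hb
    obtain ⟨v, hv, hvu⟩ := hm b hb
    have hab : Commute a b := LL_comm (hB b hb)
    have hid := D.hid v hv D.y D.hy
    rw [evl_range]
    have e1 : ∑ d ∈ Finset.range (K + 1), c d * b ^ d
        = eng n u D.y * a ^ (K - 1) * b
          - ∑ w ∈ g.support, g w • ((w.map ![u, D.y]).prod * a ^ (K - w.count 0)) * b ^ w.count 0 := by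
      simp only [c, sub_mul, Finset.sum_sub_distrib]
      congr 1
      · rw [Finset.sum_eq_single 1]
        · simp
        · intro d _ hd; simp [hd]
        · intro h; exact absurd (Finset.mem_range.2 (by omega)) h
      · rw [← Finset.sum_fiberwise_of_maps_to (s := g.support) (t := Finset.range (K + 1))
          (g := fun w => w.count 0)
          (fun w hw => Finset.mem_range.2 (Nat.lt_succ_of_le (hK w (Finsupp.mem_support_iff.1 hw))))]
        refine Finset.sum_congr rfl fun d _ => ?_
        rw [Finset.sum_mul]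
        refine Finset.sum_congr rfl fun w hw => ?_
        rw [(Finset.mem_filter.1 hw).2]
    rw [e1]
    have e2 : eng n u D.y * a ^ (K - 1) * b = eng n v D.y * a ^ K := by
      have h1 := eng_scale hvu D.y n (a ^ (K - 1))
      obtain ⟨k, rfl⟩ : ∃ k, K = k + 1 := ⟨K - 1, by omega⟩
      rw [Nat.add_sub_cancel] at h1 ⊢
      rw [← h1, mul_assoc, ← pow_succ]
    have e3 : ∀ w ∈ g.support,
        g w • ((w.map ![u, D.y]).prod * a ^ (K - w.count 0)) * b ^ w.count 0
          = g w • (w.map ![v, D.y]).prod * a ^ K := by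
      intro w hw
      have hwK := hK w (Finsupp.mem_support_iff.1 hw)
      have h1 := word_scale hvu D.y w (a ^ (K - w.count 0))
      rw [smul_mul_assoc, ← h1, smul_mul_assoc, mul_assoc, ← pow_add, Nat.sub_add_cancel hwK]
    rw [e2, Finset.sum_congr rfl e3, ← Finset.sum_mul, ← sub_mul, hid]
    unfold evf
    rw [Finsupp.sum, sub_self, zero_mul]
  have hall := vand (K + 1) ((List.range (K + 1)).map c) B (by simp) hcard
    (fun b hb b' hb' => LL_commute ha (hB b hb) (hB b' hb')) hc
  have h1 : c 1 = 0 := hall _ (List.mem_map.2 ⟨1, List.mem_range.2 (by omega), rfl⟩)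
  simp only [c, if_true] at h1
  rw [Finset.sum_eq_zero, sub_zero] at h1
  · rcases mul_eq_zero.1 h1 with h2 | h2
    · rw [hu, ← eng_add] at h2
      exact D.hne _ h2
    · exact pow_ne_zero _ ha h2
  · intro w hw
    rw [Finset.mem_filter] at hw
    have := hg w (Finsupp.mem_support_iff.1 hw.1)
    omega

end Setup

end Pool.Agent.H105R2.NE
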