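import Pool.Agent.H105R2.NE.Cross
import Pool.Agent.H105R2.NE.UT

/-! A finitely based variety containing a given finite ring of triangular matrices. -/

namespace Pool.Agent.H105R2.NE

open scoped Pointwise

/-- `pwr x n = x ^ (n + 1)` -/
def pwr {R : Type} [NonUnitalRing R] (x : R) : ℕ → R
  | 0 => x
  | n + 1 => pwr x n * x

/-- commutators and elements `x ^ q - x` -/
def IsU {R : Type} [NonUnitalRing R] (Q : ℕ) (u : R) : Prop :=
  (∃ x y, u = x * y - y * x) ∨ ∃ x, u = pwr x Q - x

/-- the properties expressed by the identities -/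
structure PW (p Q : ℕ) (R : Type) [NonUnitalRing R] : Prop where
  p1 : ∀ x : R, p • x = 0
  p2 : ∀ u v : R, IsU Q u → IsU Q v → u * v = 0
  p3 : ∀ u z v : R, IsU Q u → IsU Q v → u * z * v = 0

/-- term for the power -/
def RTerm.pw (a : RTerm) : ℕ → RTerm
  | 0 => a
  | n + 1 => .mul (a.pw n) a

/-- term for the multiple -/
def RTerm.nsm (a : RTerm) : ℕ → RTerm
  | 0 => .zero
  | n + 1 => .add (a.nsm n) a

/-- terms for the elements of type `U` -/
def RTerm.uu (Q : ℕ) (b : Bool) (i j : ℕ) : RTerm :=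
  match b with
  | true => .add (.mul (.var i) (.var j)) (.neg (.mul (.var j) (.var i)))
  | false => .add ((RTerm.var i).pw Q) (.neg (.var i))

/-- the identities -/
def T0 (p Q : ℕ) : Set RTerm :=
  {(RTerm.var 0).nsm p} ∪
    (Set.range fun b : Bool × Bool => RTerm.mul (.uu Q b.1 0 1) (.uu Q b.2 3 4)) ∪
    (Set.range fun b : Bool × Bool => RTerm.mul (.mul (.uu Q b.1 0 1) (.var 2)) (.uu Q b.2 3 4))

theorem T0_finite (p Q : ℕ) : (T0 p Q).Finite :=
  ((Set.finite_singleton _).union (Set.finite_range _)).union (Set.finite_range _)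

theorem eval_pw {R : Type} [NonUnitalRing R] (v : ℕ → R) (a : RTerm) (n : ℕ) :
    (a.pw n).eval v = pwr (a.eval v) n := by
  induction n with
  | zero => rfl
  | succ n ih => simp only [RTerm.pw, RTerm.eval, pwr, ih]

theorem eval_nsm {R : Type} [NonUnitalRing R] (v : ℕ → R) (a : RTerm) (n : ℕ) :
    (a.nsm n).eval v = n • (a.eval v) := by
  induction n with
  | zero => simp [RTerm.nsm, RTerm.eval]
  | succ n ih => simp only [RTerm.nsm, RTerm.eval, ih, succ_nsmul]

theorem eval_uu {R : Type} [NonUnitalRing R] (Q : ℕ) (v : ℕ → R) (b : Bool) (i j : ℕ) :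
    IsU Q ((RTerm.uu Q b i j).eval v) := by
  cases b with
  | true => left; exact ⟨v i, v j, by simp [RTerm.uu, RTerm.eval, sub_eq_add_neg]⟩
  | false =>
    right
    exact ⟨v i, by simp only [RTerm.uu, RTerm.eval, eval_pw, sub_eq_add_neg]⟩

theorem inVar_T0_of {p Q : ℕ} {R : Type} [NonUnitalRing R] (h : PW p Q R) : InVar (T0 p Q) R := by
  rintro t ((ht | ⟨b, rfl⟩) | ⟨b, rfl⟩) v
  · rw [Set.mem_singleton_iff] at ht
    subst ht
    rw [eval_nsm, h.p1]
  · simp only [RTerm.eval]
    exact h.p2 _ _ (eval_uu ..) (eval_uu ..)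
  · simp only [RTerm.eval]
    exact h.p3 _ _ _ (eval_uu ..) (eval_uu ..)

theorem exists_uu {R : Type} [NonUnitalRing R] {Q : ℕ} {u : R} (hu : IsU Q u) :
    ∃ (b : Bool) (x y : R), ∀ (v : ℕ → R) (i j : ℕ), v i = x → v j = y →
      (RTerm.uu Q b i j).eval v = u := by
  rcases hu with ⟨x, y, rfl⟩ | ⟨x, rfl⟩
  · refine ⟨true, x, y, fun v i j hi hj => ?_⟩
    simp [RTerm.uu, RTerm.eval, hi, hj, sub_eq_add_neg]
  · refine ⟨false, x, 0, fun v i j hi _ => ?_⟩
    simp only [RTerm.uu, RTerm.eval, eval_pw, hi, sub_eq_add_neg]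

theorem of_inVar_T0 {p Q : ℕ} {R : Type} [NonUnitalRing R] (h : InVar (T0 p Q) R) : PW p Q R := by
  refine ⟨fun x => ?_, fun u w hu hw => ?_, fun u z w hu hw => ?_⟩
  · have := h _ (Or.inl (Or.inl rfl)) (fun _ => x)
    rw [eval_nsm] at this
    exact this
  · obtain ⟨b, x, y, h1⟩ := exists_uu hu
    obtain ⟨b', x', y', h2⟩ := exists_uu hw
    have := h _ (Or.inl (Or.inr ⟨(b, b'), rfl⟩))
      (fun i => if i = 0 then x else if i = 1 then y else if i = 3 then x' else y')
    simp only [RTerm.eval] at this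
    rw [h1 _ 0 1 (by simp) (by simp), h2 _ 3 4 (by simp) (by simp)] at this
    exact this
  · obtain ⟨b, x, y, h1⟩ := exists_uu hu
    obtain ⟨b', x', y', h2⟩ := exists_uu hw
    have := h _ (Or.inr ⟨(b, b'), rfl⟩)
      (fun i => if i = 0 then x else if i = 1 then y else if i = 2 then z else
        if i = 3 then x' else y')
    simp only [RTerm.eval] at this
    rw [h1 _ 0 1 (by simp) (by simp), h2 _ 3 4 (by simp) (by simp)] at this
    simpa using this

/-! ### The triangular matrices -/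

theorem pwr_ring {A : Type} [Ring A] (x : A) (n : ℕ) : pwr x n = x ^ (n + 1) := by
  induction n with
  | zero => simp [pwr]
  | succ n ih => rw [pwr, ih, ← pow_succ]

theorem isU_UT {K : Type} [Field K] [Finite K] {Q : ℕ} (hQ : Q + 1 = Nat.card K) {u : UT K}
    (hu : IsU Q u) : ∃ c, u = Eu c := by
  have := Fintype.ofFinite K
  refine ⟨u.1 0 1, ?_⟩
  rcases hu with ⟨x, y, rfl⟩ | ⟨x, rfl⟩
  · apply ut_ext
    · simp only [ut_sub, ut_mul00, Eu00]; ring
    · rfl
    · simp only [ut_sub, ut_mul11, Eu11]; ring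
  · rw [pwr_ring, hQ, Nat.card_eq_fintype_card]
    have h0 : ∀ (M : UT K) (n : ℕ), (M ^ n).1 0 0 = (M.1 0 0) ^ n := by
      intro M n
      induction n with
      | zero => rw [pow_zero, pow_zero]; rfl
      | succ n ih => rw [pow_succ, ut_mul00, ih, pow_succ]
    have h1 : ∀ (M : UT K) (n : ℕ), (M ^ n).1 1 1 = (M.1 1 1) ^ n := by
      intro M n
      induction n with
      | zero => rw [pow_zero, pow_zero]; rfl
      | succ n ih => rw [pow_succ, ut_mul11, ih, pow_succ]
    apply ut_ext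
    · rw [ut_sub, h0, FiniteField.pow_card, sub_self, Eu00]
    · rfl
    · rw [ut_sub, h1, FiniteField.pow_card, sub_self, Eu11]

theorem PW_UT {K : Type} [Field K] [Finite K] {p Q : ℕ} [CharP K p] (hQ : Q + 1 = Nat.card K) :
    PW p Q (UT K) := by
  refine ⟨fun x => ?_, fun u v hu hv => ?_, fun u z v hu hv => ?_⟩
  · have h : ∀ i j, (p • x).1 i j = 0 := by
      intro i j
      change p • (x.1 i j) = 0
      rw [nsmul_eq_mul, CharP.cast_eq_zero, zero_mul]
    exact ut_ext (h _ _) (h _ _) (h _ _)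
  · obtain ⟨c, rfl⟩ := isU_UT hQ hu
    obtain ⟨d, rfl⟩ := isU_UT hQ hv
    have := Eu_sq (1 : UT K) c d
    rwa [mul_one] at this
  · obtain ⟨c, rfl⟩ := isU_UT hQ hu
    obtain ⟨d, rfl⟩ := isU_UT hQ hv
    exact Eu_sq z c d

/-! ### The ideal `J` -/

theorem exists_J {p Q : ℕ} {R : Type} [NonUnitalRing R] (h : PW p Q R) :
    ∃ J : TwoSidedIdeal R, (∀ x y, x * y - y * x ∈ J) ∧ (∀ x, pwr x Q - x ∈ J) ∧
      ∀ i ∈ J, ∀ j ∈ J, i * j = 0 := by
  let J1 : TwoSidedIdeal R := TwoSidedIdeal.mk'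
    {j | ∀ u, IsU Q u → j * u = 0 ∧ ∀ z, j * z * u = 0}
    (by intro u _; simp)
    (by
      intro x y hx hy u hu
      refine ⟨by rw [add_mul, (hx u hu).1, (hy u hu).1, add_zero], fun z => ?_⟩
      rw [add_mul, add_mul, (hx u hu).2, (hy u hu).2, add_zero])
    (by
      intro x hx u hu
      refine ⟨by rw [neg_mul, (hx u hu).1, neg_zero], fun z => ?_⟩
      rw [neg_mul, neg_mul, (hx u hu).2, neg_zero])
    (by
      intro x y hy u hu
      refine ⟨by rw [mul_assoc, (hy u hu).1, mul_zero], fun z => ?_⟩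
      rw [mul_assoc x, mul_assoc x, (hy u hu).2, mul_zero])
    (by
      intro x y hx u hu
      refine ⟨(hx u hu).2 y, fun z => ?_⟩
      rw [mul_assoc x, (hx u hu).2])
  have hJ1 : ∀ j, j ∈ J1 ↔ ∀ u, IsU Q u → j * u = 0 ∧ ∀ z, j * z * u = 0 :=
    fun j => TwoSidedIdeal.mem_mk' ..
  let J2 : TwoSidedIdeal R := TwoSidedIdeal.mk'
    {j | j ∈ J1 ∧ ∀ i ∈ J1, i * j = 0}
    ⟨J1.zero_mem, fun i _ => by simp⟩
    (by
      rintro x y ⟨hx1, hx⟩ ⟨hy1, hy⟩
      exact ⟨J1.add_mem hx1 hy1, fun i hi => by rw [mul_add, hx i hi, hy i hi, add_zero]⟩)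
    (by
      rintro x ⟨hx1, hx⟩
      exact ⟨J1.neg_mem hx1, fun i hi => by rw [mul_neg, hx i hi, neg_zero]⟩)
    (by
      rintro x y ⟨hy1, hy⟩
      exact ⟨J1.mul_mem_left _ _ hy1, fun i hi => by
        rw [← mul_assoc, hy _ (J1.mul_mem_right _ _ hi)]⟩)
    (by
      rintro x y ⟨hx1, hx⟩
      exact ⟨J1.mul_mem_right _ _ hx1, fun i hi => by
        rw [← mul_assoc, hx _ hi, zero_mul]⟩)
  have hJ2 : ∀ j, j ∈ J2 ↔ j ∈ J1 ∧ ∀ i ∈ J1, i * j = 0 := fun j => TwoSidedIdeal.mem_mk' ..
  have hU1 : ∀ u, IsU Q u → u ∈ J1 := fun u hu =>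
    (hJ1 u).2 fun v hv => ⟨h.p2 u v hu hv, fun z => h.p3 u z v hu hv⟩
  have hU2 : ∀ u, IsU Q u → u ∈ J2 := fun u hu =>
    (hJ2 u).2 ⟨hU1 u hu, fun i hi => (((hJ1 i).1 hi) u hu).1⟩
  refine ⟨J2, fun x y => hU2 _ (Or.inl ⟨x, y, rfl⟩), fun x => hU2 _ (Or.inr ⟨x, rfl⟩), ?_⟩
  intro i hi j hj
  exact ((hJ2 j).1 hj).2 i ((hJ2 i).1 hi).1

/-! ### Local finiteness -/

theorem finite_of_fg_torsion_group {G : Type} [AddCommGroup G] (p : ℕ) (hp : 0 < p)
    (htor : ∀ x : G, p • x = 0) [Module.Finite ℤ G] : Finite G := by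
  apply Module.finite_of_fg_torsion
  intro x
  refine ⟨⟨(p : ℤ), mem_nonZeroDivisors_of_ne_zero (by exact_mod_cast hp.ne')⟩, ?_⟩
  change (p : ℤ) • x = 0
  rw [natCast_zsmul, htor]

theorem comm_locally_finite_aux {p Q : ℕ} (hp : 0 < p) (hQ : 1 ≤ Q) {R : Type}
    [NonUnitalRing R] (hpow : ∀ x : R, pwr x Q = x) (hpR : ∀ x : R, p • x = 0)
    (X : Set R) (hX : X.Finite) (hgen : NonUnitalSubring.closure X = ⊤)
    {B : Type} [CommRing B] (i : R →ₙ+* B) (hi : Function.Injective i) : Finite R := by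
  have hint : ∀ b ∈ i '' X, IsIntegral ℤ b := by
    rintro _ ⟨r, _, rfl⟩
    refine ⟨Polynomial.X ^ (Q + 1) - Polynomial.X, ?_, ?_⟩
    · exact Polynomial.monic_X_pow_sub (by
        rw [Polynomial.degree_X]
        exact_mod_cast (by omega : 1 < Q + 1))
    · rw [Polynomial.eval₂_sub, Polynomial.eval₂_X_pow, Polynomial.eval₂_X]
      have h1 : ∀ n, (i r) ^ (n + 1) = i (pwr r n) := by
        intro n
        induction n with
        | zero => simp [pwr]
        | succ n ih => rw [pow_succ, ih, pwr, map_mul]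
      rw [h1, hpow, sub_self]
  have hfg := fg_adjoin_of_finite (hX.image i) hint
  set N := Algebra.adjoin ℤ (i '' X) with hN
  have hmem : ∀ r : R, i r ∈ N := by
    intro r
    have hr : r ∈ NonUnitalSubring.closure X := by rw [hgen]; trivial
    induction hr using NonUnitalSubring.closure_induction with
    | mem x hx => exact Algebra.subset_adjoin ⟨x, hx, rfl⟩
    | zero => simp
    | add x y _ _ h1 h2 => rw [map_add]; exact N.add_mem h1 h2
    | neg x _ h1 => rw [map_neg]; exact N.neg_mem h1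
    | mul x y _ _ h1 h2 => rw [map_mul]; exact N.mul_mem h1 h2
  have : Module.Finite ℤ N := Module.Finite.iff_fg.2 hfg
  let f : R →+ N :=
    { toFun := fun r => ⟨i r, hmem r⟩
      map_add' := fun x y => Subtype.ext (map_add i x y)
      map_zero' := Subtype.ext (map_zero i) }
  have hf : Function.Injective f := by
    intro x y hxy
    exact hi (congrArg Subtype.val hxy)
  have : Module.Finite ℤ R := Module.Finite.of_injective f.toIntLinearMap hf
  exact finite_of_fg_torsion_group p hp hpR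

theorem comm_locally_finite {p Q : ℕ} (hp : 0 < p) (hQ : 1 ≤ Q) {R : Type}
    [NonUnitalCommRing R] (hpow : ∀ x : R, pwr x Q = x) (hpR : ∀ x : R, p • x = 0)
    (X : Set R) (hX : X.Finite) (hgen : NonUnitalSubring.closure X = ⊤) : Finite R :=
  comm_locally_finite_aux hp hQ hpow hpR X hX hgen (B := Unitization ℤ R)
    { toFun := fun r => (r : Unitization ℤ R)
      map_mul' := Unitization.inr_mul ℤ
      map_zero' := Unitization.inr_zero ℤ
      map_add' := Unitization.inr_add ℤ } Unitization.inr_injective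

theorem quo_pwr {R : Type} [NonUnitalRing R] (J : TwoSidedIdeal R) (x : R) (n : ℕ) :
    quo J (pwr x n) = pwr (quo J x) n := by
  induction n with
  | zero => rfl
  | succ n ih => rw [pwr, map_mul, ih, pwr]

theorem locallyFinite_PW {p Q : ℕ} (hp : 0 < p) (hQ : 1 ≤ Q) {R : Type} [NonUnitalRing R]
    (h : PW p Q R) (X : Set R) (hX : X.Finite) (hgen : NonUnitalSubring.closure X = ⊤) :
    Finite R := by
  obtain ⟨J, hJ1, hJ2, hJ3⟩ := exists_J h
  -- the quotient is finite
  have hquo : Finite (Quo J) := by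
    have hcomm : ∀ x y : Quo J, x * y = y * x := by
      intro x y
      obtain ⟨x, rfl⟩ := quo_surj J x
      obtain ⟨y, rfl⟩ := quo_surj J y
      rw [← sub_eq_zero, ← map_mul, ← map_mul, ← map_sub, quo_eq_zero]
      exact hJ1 x y
    let inst : NonUnitalCommRing (Quo J) :=
      { (inferInstance : NonUnitalRing (Quo J)) with mul_comm := hcomm }
    refine @comm_locally_finite p Q hp hQ (Quo J) inst ?_ ?_ (quo J '' X) (hX.image _) ?_
    · intro x
      obtain ⟨x, rfl⟩ := quo_surj J x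
      rw [← sub_eq_zero, ← quo_pwr, ← map_sub, quo_eq_zero]
      exact hJ2 x
    · intro x
      obtain ⟨x, rfl⟩ := quo_surj J x
      rw [← map_nsmul, h.p1, map_zero]
    · rw [eq_top_iff]
      rintro y -
      obtain ⟨y, rfl⟩ := quo_surj J y
      have hy : y ∈ NonUnitalSubring.closure X := by rw [hgen]; trivial
      induction hy using NonUnitalSubring.closure_induction with
      | mem x hx => exact NonUnitalSubring.subset_closure ⟨x, hx, rfl⟩
      | zero => rw [map_zero]; exact zero_mem _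
      | add x y _ _ h1 h2 => rw [map_add]; exact add_mem h1 h2
      | neg x _ h1 => rw [map_neg]; exact neg_mem h1
      | mul x y _ _ h1 h2 => rw [map_mul]; exact mul_mem h1 h2
  -- a finite additive subgroup `E` with `E + J = R`
  choose s hs using quo_surj J
  let E : Submodule ℤ R := Submodule.span ℤ (X ∪ Set.range s)
  have hfinspan : ∀ F : Set R, F.Finite → Finite (Submodule.span ℤ F) := by
    intro F hF
    have : Module.Finite ℤ (Submodule.span ℤ F) := Module.Finite.iff_fg.2 ⟨hF.toFinset, by simp⟩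
    exact finite_of_fg_torsion_group p hp fun x => Subtype.ext (h.p1 x.1)
  have hEfin : Finite E := hfinspan _ (hX.union (Set.finite_range s))
  have hEset : (E : Set R).Finite := hEfin
  have hE : ∀ r : R, ∃ e ∈ E, r - e ∈ J := by
    intro r
    refine ⟨s (quo J r), Submodule.subset_span (Or.inr ⟨_, rfl⟩), ?_⟩
    rw [← quo_eq_zero, map_sub, hs, sub_self]
  let F : Set R := (E : Set R) ∪ (E : Set R) * (E : Set R) ∪ (E : Set R) * (E : Set R) * (E : Set R)
  have hFfin : F.Finite := (hEset.union (hEset.mul hEset)).union ((hEset.mul hEset).mul hEset)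
  let N : Submodule ℤ R := Submodule.span ℤ F
  have hNfin : Finite N := hfinspan F hFfin
  have hm2 : ∀ a ∈ E, ∀ b ∈ E, a * b ∈ N := fun a ha b hb =>
    Submodule.subset_span (Or.inl (Or.inr ⟨a, ha, b, hb, rfl⟩))
  have hm3 : ∀ a ∈ E, ∀ b ∈ E, ∀ c ∈ E, a * b * c ∈ N := fun a ha b hb c hc =>
    Submodule.subset_span (Or.inr ⟨a * b, ⟨a, ha, b, hb, rfl⟩, c, hc, rfl⟩)
  have hm4 : ∀ a ∈ E, ∀ b ∈ E, ∀ c ∈ E, ∀ d ∈ E, a * (b * c * d) ∈ N := by
    intro a ha b hb c hc d hd
    obtain ⟨e, he, hej⟩ := hE (a * b)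
    obtain ⟨e', he', hej'⟩ := hE (c * d)
    have h0 := hJ3 _ hej _ hej'
    have h1 : a * (b * c * d) = e * c * d + a * b * e' - e * e' := by
      have : (a * b - e) * (c * d - e') = a * (b * c * d) - (e * c * d + a * b * e' - e * e') := by
        noncomm_ring
      rw [this] at h0
      exact sub_eq_zero.1 h0
    rw [h1]
    exact N.sub_mem (N.add_mem (hm3 _ he _ hc _ hd) (hm3 _ ha _ hb _ he')) (hm2 _ he _ he')
  have hEN : ∀ a ∈ E, ∀ n ∈ N, a * n ∈ N := by
    intro a ha n hn
    induction hn using Submodule.span_induction with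
    | mem x hx =>
      rcases hx with (hx | ⟨b, hb, c, hc, rfl⟩) | ⟨_, ⟨b, hb, c, hc, rfl⟩, d, hd, rfl⟩
      · exact hm2 a ha x hx
      · simp only
        rw [← mul_assoc]; exact hm3 a ha b hb c hc
      · exact hm4 a ha b hb c hc d hd
    | zero => rw [mul_zero]; exact N.zero_mem
    | add x y _ _ h1 h2 => rw [mul_add]; exact N.add_mem h1 h2
    | smul k x _ h1 => rw [mul_smul_comm]; exact N.smul_mem k h1
  have hRN : ∀ a : R, ∀ n ∈ N, a * n ∈ N := by
    intro a
    have ha : a ∈ NonUnitalSubring.closure X := by rw [hgen]; trivial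
    induction ha using NonUnitalSubring.closure_induction with
    | mem x hx => exact hEN x (Submodule.subset_span (Or.inl hx))
    | zero => intro n _; rw [zero_mul]; exact N.zero_mem
    | add x y _ _ h1 h2 => intro n hn; rw [add_mul]; exact N.add_mem (h1 n hn) (h2 n hn)
    | neg x _ h1 => intro n hn; rw [neg_mul]; exact N.neg_mem (h1 n hn)
    | mul x y _ _ h1 h2 => intro n hn; rw [mul_assoc]; exact h1 _ (h2 n hn)
  have hall : ∀ a : R, a ∈ N := by
    intro a
    have ha : a ∈ NonUnitalSubring.closure X := by rw [hgen]; trivial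
    induction ha using NonUnitalSubring.closure_induction with
    | mem x hx =>
      exact Submodule.subset_span (Or.inl (Or.inl (Submodule.subset_span (Or.inl hx))))
    | zero => exact N.zero_mem
    | add x y _ _ h1 h2 => exact N.add_mem h1 h2
    | neg x _ h1 => exact N.neg_mem h1
    | mul x y _ _ _ h2 => exact hRN x y h2
  exact Finite.of_injective (fun a : R => (⟨a, hall a⟩ : N)) fun a b hab => congrArg Subtype.val hab

end Pool.Agent.H105R2.NE
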